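import Mathlib

/-!
If the exponential sums of a family of residues are small then some residue lies in a given window.
-/

namespace Pool.Agent.H2.SumPow

open Finset

theorem cos_window (N : ℕ) (hN : 0 < N) (ε x t : ℝ) (hε0 : 0 < ε) (hε1 : ε ≤ 1)
    (hx0 : 0 ≤ x) (hxN : x < N) (ht1 : ε * N / 4 ≤ t) (ht2 : t ≤ (1 - ε / 4) * N)
    (hcos : Real.cos (Real.pi * ε / 2) < Real.cos (2 * Real.pi * (x - t) / N)) :
    |x - t| < ε * N / 4 := by
  have hNr : (0 : ℝ) < N := by exact_mod_cast hN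
  have hpi := Real.pi_pos
  by_contra hcon
  push Not at hcon
  apply not_le.mpr hcos
  set d := |x - t| with hd
  have hd2 : d ≤ (1 - ε / 4) * N := by
    rw [hd, abs_le]
    constructor
    · linarith
    · have : (1 - ε / 4) * N = N - ε * N / 4 := by ring
      linarith
  have hcosd : Real.cos (2 * Real.pi * (x - t) / N) = Real.cos (2 * Real.pi * d / N) := by
    rw [hd]
    rcases abs_choice (x - t) with h | h
    · rw [h]
    · rw [h, ← Real.cos_neg]
      congr 1
      ring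
  rw [hcosd]
  set θ := 2 * Real.pi * d / N with hθ
  have hθ1 : Real.pi * ε / 2 ≤ θ := by
    rw [hθ, le_div_iff₀ hNr]
    have := mul_le_mul_of_nonneg_left hcon (by positivity : 0 ≤ 2 * Real.pi)
    linarith
  have hθ2 : θ ≤ 2 * Real.pi - Real.pi * ε / 2 := by
    rw [hθ, div_le_iff₀ hNr]
    have := mul_le_mul_of_nonneg_left hd2 (by positivity : 0 ≤ 2 * Real.pi)
    linarith
  have h0 : 0 ≤ Real.pi * ε / 2 := by positivity
  rcases le_total θ Real.pi with h | h
  · exact Real.cos_le_cos_of_nonneg_of_le_pi h0 h hθ1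
  · have h3 : Real.cos θ = Real.cos (2 * Real.pi - θ) := by
      rw [Real.cos_two_pi_sub]
    rw [h3]
    exact Real.cos_le_cos_of_nonneg_of_le_pi h0 (by linarith) (by linarith)

theorem exists_in_window {A : Type*} (N K : ℕ) [NeZero N] (Y : Finset A) (x : A → ZMod N) (t : ℤ)
    (δ κ : ℝ) (hκ0 : 0 ≤ κ) (hκ1 : κ ≤ 1) (hK : 3 ≤ K * (1 - κ)) (hδ : 2 * K ^ 2 * δ ≤ 1)
    (hδ0 : 0 ≤ δ) (hY : 0 < Y.card)
    (hsum : ∀ m : ℤ, m ≠ 0 → |m| ≤ K →
      ‖∑ y ∈ Y, ZMod.stdAddChar ((m : ZMod N) * x y)‖ ≤ δ * Y.card) :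
    ∃ y ∈ Y, κ < (ZMod.stdAddChar (x y - (t : ZMod N))).re := by
  classical
  by_contra hcon
  push Not at hcon
  set ψ : AddChar (ZMod N) ℂ := ZMod.stdAddChar with hψ
  set X : A → ZMod N := fun y => x y - (t : ZMod N) with hX
  set Am : ℤ → ℂ := fun m => ∑ y ∈ Y, ψ ((m : ZMod N) * X y) with hA
  have hnormψ : ∀ z : ZMod N, ‖ψ z‖ = 1 := fun z => AddChar.norm_apply ψ z
  have hA0 : (Am 0).re = Y.card := by
    simp [hA]
  have hAm : ∀ m : ℤ, m ≠ 0 → |m| ≤ K → |(Am m).re| ≤ δ * Y.card := by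
    intro m hm hmK
    refine (Complex.abs_re_le_norm _).trans ?_
    have h1 : Am m = ψ (-((m : ZMod N) * (t : ZMod N))) * ∑ y ∈ Y, ψ ((m : ZMod N) * x y) := by
      rw [hA]
      simp only
      rw [Finset.mul_sum]
      refine Finset.sum_congr rfl fun y _ => ?_
      rw [← AddChar.map_add_eq_mul]
      congr 1
      simp only [hX]
      ring
    rw [h1, norm_mul, hnormψ, one_mul]
    exact hsum m hm hmK
  have hlow : ∀ m : ℤ, |m| ≤ K →
      (Y.card : ℝ) * (if m = 0 then 1 else 0) - δ * Y.card ≤ (Am m).re := by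
    intro m hmK
    split_ifs with h
    · subst h
      rw [hA0]
      have : 0 ≤ δ * Y.card := by positivity
      linarith
    · have := (abs_le.mp (hAm m h hmK)).1
      linarith
  have hup : ∀ m : ℤ, |m| ≤ K →
      (Am m).re ≤ (Y.card : ℝ) * (if m = 0 then 1 else 0) + δ * Y.card := by
    intro m hmK
    split_ifs with h
    · subst h
      rw [hA0]
      have : 0 ≤ δ * Y.card := by positivity
      linarith
    · have := (abs_le.mp (hAm m h hmK)).2
      linarith
  -- the pointwise identity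
  have hpt : ∀ y : A, ((‖∑ j ∈ range K, ψ ((j : ZMod N) * X y)‖ ^ 2 * ((ψ (X y)).re - κ) : ℝ) : ℂ)
      = ∑ j ∈ range K, ∑ l ∈ range K, ((ψ ((((j : ℤ) - l + 1 : ℤ) : ZMod N) * X y)
          + ψ ((((j : ℤ) - l - 1 : ℤ) : ZMod N) * X y)) / 2
          - κ * ψ ((((j : ℤ) - l : ℤ) : ZMod N) * X y)) := by
    intro y
    have h1 : ((‖∑ j ∈ range K, ψ ((j : ZMod N) * X y)‖ ^ 2 : ℝ) : ℂ)
        = ∑ j ∈ range K, ∑ l ∈ range K, ψ ((((j : ℤ) - l : ℤ) : ZMod N) * X y) := by
      rw [Complex.ofReal_pow, ← Complex.mul_conj', map_sum, Finset.sum_mul_sum]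
      refine Finset.sum_congr rfl fun j _ => Finset.sum_congr rfl fun l _ => ?_
      rw [← AddChar.map_neg_eq_conj, ← AddChar.map_add_eq_mul]
      congr 1
      push_cast
      ring
    have h2 : (((ψ (X y)).re : ℝ) : ℂ) = (ψ (X y) + ψ (- X y)) / 2 := by
      rw [AddChar.map_neg_eq_conj, Complex.re_eq_add_conj]
    rw [Complex.ofReal_mul, h1, Complex.ofReal_sub, h2, Finset.sum_mul]
    refine Finset.sum_congr rfl fun j _ => ?_
    rw [Finset.sum_mul]
    refine Finset.sum_congr rfl fun l _ => ?_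
    have h3 : ψ ((((j : ℤ) - l + 1 : ℤ) : ZMod N) * X y)
        = ψ ((((j : ℤ) - l : ℤ) : ZMod N) * X y) * ψ (X y) := by
      rw [← AddChar.map_add_eq_mul]
      congr 1
      push_cast
      ring
    have h4 : ψ ((((j : ℤ) - l - 1 : ℤ) : ZMod N) * X y)
        = ψ ((((j : ℤ) - l : ℤ) : ZMod N) * X y) * ψ (- X y) := by
      rw [← AddChar.map_add_eq_mul]
      congr 1
      push_cast
      ring
    rw [h3, h4]
    ring
  have hneg : ∑ y ∈ Y, ‖∑ j ∈ range K, ψ ((j : ZMod N) * X y)‖ ^ 2 * ((ψ (X y)).re - κ) ≤ 0 := by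
    refine Finset.sum_nonpos fun y hy => ?_
    have h1 := hcon y hy
    exact mul_nonpos_of_nonneg_of_nonpos (by positivity) (by simp only [hX]; linarith)
  have hid : ∑ y ∈ Y, ‖∑ j ∈ range K, ψ ((j : ZMod N) * X y)‖ ^ 2 * ((ψ (X y)).re - κ)
      = ∑ j ∈ range K, ∑ l ∈ range K, (((Am ((j : ℤ) - l + 1)).re + (Am ((j : ℤ) - l - 1)).re) / 2
          - κ * (Am ((j : ℤ) - l)).re) := by
    have h1 : ((∑ y ∈ Y, ‖∑ j ∈ range K, ψ ((j : ZMod N) * X y)‖ ^ 2
        * ((ψ (X y)).re - κ) : ℝ) : ℂ)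
      = ∑ j ∈ range K, ∑ l ∈ range K, ((Am ((j : ℤ) - l + 1) + Am ((j : ℤ) - l - 1)) / 2
          - κ * Am ((j : ℤ) - l)) := by
      rw [Complex.ofReal_sum, Finset.sum_congr rfl fun y _ => hpt y, Finset.sum_comm]
      refine Finset.sum_congr rfl fun j _ => ?_
      rw [Finset.sum_comm]
      refine Finset.sum_congr rfl fun l _ => ?_
      simp only [hA]
      rw [Finset.sum_sub_distrib, ← Finset.mul_sum, ← Finset.sum_div, Finset.sum_add_distrib]
    have h2 := congrArg Complex.re h1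
    rw [Complex.ofReal_re] at h2
    rw [h2, Complex.re_sum]
    refine Finset.sum_congr rfl fun j _ => ?_
    rw [Complex.re_sum]
    refine Finset.sum_congr rfl fun l _ => ?_
    rw [Complex.sub_re, Complex.re_ofReal_mul]
    congr 1
    have : ((Am ((j : ℤ) - l + 1) + Am ((j : ℤ) - l - 1)) / 2).re
        = (Am ((j : ℤ) - l + 1) + Am ((j : ℤ) - l - 1)).re / 2 := by
      rw [show ((2 : ℂ)) = ((2 : ℝ) : ℂ) by norm_num, Complex.div_ofReal_re]
    rw [this, Complex.add_re]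
  -- lower bound
  have hlb : ∑ j ∈ range K, ∑ l ∈ range K,
      (((Y.card : ℝ) * (if (j : ℤ) - l + 1 = 0 then 1 else 0) - δ * Y.card
        + ((Y.card : ℝ) * (if (j : ℤ) - l - 1 = 0 then 1 else 0) - δ * Y.card)) / 2
        - κ * ((Y.card : ℝ) * (if (j : ℤ) - l = 0 then 1 else 0) + δ * Y.card))
      ≤ ∑ j ∈ range K, ∑ l ∈ range K, (((Am ((j : ℤ) - l + 1)).re
        + (Am ((j : ℤ) - l - 1)).re) / 2 - κ * (Am ((j : ℤ) - l)).re) := by
    refine Finset.sum_le_sum fun j hj => Finset.sum_le_sum fun l hl => ?_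
    rw [mem_range] at hj hl
    have b1 : |(j : ℤ) - l + 1| ≤ K := by rw [abs_le]; constructor <;> omega
    have b2 : |(j : ℤ) - l - 1| ≤ K := by rw [abs_le]; constructor <;> omega
    have b3 : |(j : ℤ) - l| ≤ K := by rw [abs_le]; constructor <;> omega
    have c1 := hlow _ b1
    have c2 := hlow _ b2
    have c3 := mul_le_mul_of_nonneg_left (hup _ b3) hκ0
    linarith
  -- counting
  have hcount1 : ∑ j ∈ range K, ∑ l ∈ range K, (if (j : ℤ) - l + 1 = 0 then (1 : ℝ) else 0)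
      = (K : ℝ) - 1 := by
    have h1 : ∀ j ∈ range K, ∑ l ∈ range K, (if (j : ℤ) - l + 1 = 0 then (1 : ℝ) else 0)
        = if j + 1 < K then 1 else 0 := by
      intro j _
      have h2 : ∀ l ∈ range K, (if (j : ℤ) - l + 1 = 0 then (1 : ℝ) else 0)
          = if l = j + 1 then 1 else 0 := by
        intro l _
        by_cases h : l = j + 1
        · rw [if_pos h, if_pos (by omega)]
        · rw [if_neg h, if_neg (by omega)]
      rw [Finset.sum_congr rfl h2, Finset.sum_ite_eq']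
      simp only [mem_range]
    rw [Finset.sum_congr rfl h1]
    have hKpos : 0 < K := by
      rcases Nat.eq_zero_or_pos K with h | h
      · subst h
        norm_num at hK
      · exact h
    obtain ⟨K', rfl⟩ : ∃ K', K = K' + 1 := ⟨K - 1, by omega⟩
    rw [Finset.sum_range_succ]
    rw [Finset.sum_congr rfl (fun j hj => by
      rw [mem_range] at hj
      rw [if_pos (by omega)] : ∀ j ∈ range K', (if j + 1 < K' + 1 then (1 : ℝ) else 0) = 1)]
    simp
  have hcount2 : ∑ j ∈ range K, ∑ l ∈ range K, (if (j : ℤ) - l - 1 = 0 then (1 : ℝ) else 0)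
      = (K : ℝ) - 1 := by
    rw [Finset.sum_comm, ← hcount1]
    refine Finset.sum_congr rfl fun j _ => Finset.sum_congr rfl fun l _ => ?_
    by_cases h : (l : ℤ) - j - 1 = 0
    · rw [if_pos h, if_pos (by omega)]
    · rw [if_neg h, if_neg (by omega)]
  have hcount3 : ∑ j ∈ range K, ∑ l ∈ range K, (if (j : ℤ) - l = 0 then (1 : ℝ) else 0)
      = (K : ℝ) := by
    have h1 : ∀ j ∈ range K, ∑ l ∈ range K, (if (j : ℤ) - l = 0 then (1 : ℝ) else 0) = 1 := by
      intro j hj
      have h2 : ∀ l ∈ range K, (if (j : ℤ) - l = 0 then (1 : ℝ) else 0)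
          = if l = j then 1 else 0 := by
        intro l _
        by_cases h : l = j
        · rw [if_pos h, if_pos (by omega)]
        · rw [if_neg h, if_neg (by omega)]
      rw [Finset.sum_congr rfl h2, Finset.sum_ite_eq', if_pos hj]
    rw [Finset.sum_congr rfl h1]
    simp
  have heval : ∑ j ∈ range K, ∑ l ∈ range K,
      (((Y.card : ℝ) * (if (j : ℤ) - l + 1 = 0 then 1 else 0) - δ * Y.card
        + ((Y.card : ℝ) * (if (j : ℤ) - l - 1 = 0 then 1 else 0) - δ * Y.card)) / 2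
        - κ * ((Y.card : ℝ) * (if (j : ℤ) - l = 0 then 1 else 0) + δ * Y.card))
      = Y.card * ((K - 1) - κ * K - K ^ 2 * δ * (1 + κ)) := by
    have h1 : ∀ j ∈ range K, ∀ l ∈ range K,
      (((Y.card : ℝ) * (if (j : ℤ) - l + 1 = 0 then 1 else 0) - δ * Y.card
        + ((Y.card : ℝ) * (if (j : ℤ) - l - 1 = 0 then 1 else 0) - δ * Y.card)) / 2
        - κ * ((Y.card : ℝ) * (if (j : ℤ) - l = 0 then 1 else 0) + δ * Y.card))
      = (Y.card / 2 : ℝ) * (if (j : ℤ) - l + 1 = 0 then 1 else 0)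
        + (Y.card / 2 : ℝ) * (if (j : ℤ) - l - 1 = 0 then 1 else 0)
        - κ * Y.card * (if (j : ℤ) - l = 0 then 1 else 0) - δ * Y.card * (1 + κ) := by
      intro j _ l _
      ring
    rw [Finset.sum_congr rfl fun j hj => Finset.sum_congr rfl fun l hl => h1 j hj l hl]
    simp only [Finset.sum_sub_distrib, Finset.sum_add_distrib, ← Finset.mul_sum, hcount1,
      hcount2, hcount3, Finset.sum_const, Finset.card_range, nsmul_eq_mul]
    ring
  have hYr : (0 : ℝ) < Y.card := by exact_mod_cast hY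
  have hfinal : (Y.card : ℝ) * 1 ≤ Y.card * ((K - 1) - κ * K - K ^ 2 * δ * (1 + κ)) := by
    refine mul_le_mul_of_nonneg_left ?_ hYr.le
    have : (K : ℝ) ^ 2 * δ * (1 + κ) ≤ 2 * K ^ 2 * δ := by
      have h0 : 0 ≤ (K : ℝ) ^ 2 * δ := by positivity
      nlinarith
    nlinarith
  rw [hid] at hneg
  linarith

end Pool.Agent.H2.SumPow
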