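import Pool.Agent.H2.SumPow.Bilinear
import Pool.Agent.H2.SumPow.Window

/-!
For every `ε > 0` and every large `N` there are `b, M` with `N ∣ b M + 1`, `M ∈ (εN/2 - 1, εN)`,
`b ^ 3 < N ^ 2`.
-/

namespace Pool.Agent.H2.SumPow

open Finset Filter

theorem growth (C : ℝ) (hC : 1 ≤ C) : ∀ᶠ X : ℕ in atTop, ∀ w : ℝ,
    (Nat.primeCounting X : ℝ) - 1 - Real.logb 2 (C * ((X : ℝ) + 1) ^ 3) ≤ w →
      C * ((X : ℝ) + 1) ^ 3 ≤ w ^ 4 := by
  have hlogC : 0 ≤ Real.log C := Real.log_nonneg hC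
  have e1 : ∀ᶠ x : ℝ in atTop, Real.log x ^ 2 ≤ (1 / (4 * (15 + 2 * Real.log C))) * x := by
    have h := (Real.isLittleO_pow_log_id_atTop (n := 2)).bound
      (c := 1 / (4 * (15 + 2 * Real.log C))) (by positivity)
    filter_upwards [h, eventually_ge_atTop 0] with x hx hx0
    rw [id, Real.norm_of_nonneg (by positivity), Real.norm_of_nonneg hx0] at hx
    exact hx
  have e2 : ∀ᶠ x : ℝ in atTop, Real.log x ^ 4 ≤ (1 / (2048 * C)) * x := by
    have h := (Real.isLittleO_pow_log_id_atTop (n := 4)).bound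
      (c := 1 / (2048 * C)) (by positivity)
    filter_upwards [h, eventually_ge_atTop 0] with x hx hx0
    rw [id, Real.norm_of_nonneg (by positivity), Real.norm_of_nonneg hx0] at hx
    exact hx
  have e1' := tendsto_natCast_atTop_atTop.eventually e1
  have e2' := tendsto_natCast_atTop_atTop.eventually e2
  filter_upwards [e1', e2', eventually_ge_atTop 3] with X h1 h2 h3 w hw
  have hX3 : (3 : ℝ) ≤ X := by exact_mod_cast h3
  have hX0 : (0 : ℝ) < X := by linarith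
  have hlog1 : 1 ≤ Real.log X := by
    rw [Real.le_log_iff_exp_le hX0]
    have := Real.exp_one_lt_d9
    linarith
  have hlogX1 : Real.log ((X : ℝ) + 1) ≤ 2 * Real.log X := by
    have : Real.log ((X : ℝ) + 1) ≤ Real.log ((X : ℝ) ^ 2) := by
      apply Real.log_le_log (by linarith)
      nlinarith
    rwa [Real.log_pow] at this
  have hlog2 : (0.69 : ℝ) < Real.log 2 := by
    have := Real.log_two_gt_d9
    linarith
  have hlogb : Real.logb 2 (C * ((X : ℝ) + 1) ^ 3)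
      ≤ 2 * (Real.log C + 6 * Real.log X) := by
    rw [Real.logb, Real.log_mul (by linarith) (by positivity), Real.log_pow]
    rw [div_le_iff₀ (by linarith)]
    push_cast
    nlinarith
  have hpi := Chebyshev.pi_ge X
  have hw1 : (X : ℝ) / (4 * Real.log X) ≤ w := by
    refine le_trans ?_ hw
    have h4 : (X * Real.log 2 - Real.log (X + 1)) / Real.log X - 1
        - 2 * (Real.log C + 6 * Real.log X) ≤
        (Nat.primeCounting X : ℝ) - 1 - Real.logb 2 (C * ((X : ℝ) + 1) ^ 3) := by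
      linarith
    refine le_trans ?_ h4
    have h5 : (X : ℝ) / (4 * Real.log X) = ((X : ℝ) / 4) / Real.log X := by
      field_simp
    have h6 : (X * Real.log 2 - Real.log (X + 1)) / Real.log X - 1
        - 2 * (Real.log C + 6 * Real.log X)
        = (X * Real.log 2 - Real.log (X + 1) - Real.log X
          - 2 * (Real.log C + 6 * Real.log X) * Real.log X) / Real.log X := by
      field_simp
    rw [h5, h6]
    apply div_le_div_of_nonneg_right _ (by linarith)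
    have h7 : (15 + 2 * Real.log C) * Real.log X ^ 2 ≤ X / 4 := by
      have := mul_le_mul_of_nonneg_left h1 (by linarith : 0 ≤ 15 + 2 * Real.log C)
      refine this.trans (le_of_eq ?_)
      field_simp
    have h8 : Real.log X ≤ Real.log X ^ 2 := by nlinarith
    have h9 : Real.log (X + 1) + Real.log X + 2 * (Real.log C + 6 * Real.log X) * Real.log X
        ≤ (15 + 2 * Real.log C) * Real.log X ^ 2 := by
      nlinarith
    nlinarith
  have hw0 : 0 ≤ (X : ℝ) / (4 * Real.log X) := by positivity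
  have hw4 : ((X : ℝ) / (4 * Real.log X)) ^ 4 ≤ w ^ 4 := pow_le_pow_left₀ hw0 hw1 4
  refine le_trans ?_ hw4
  rw [div_pow, le_div_iff₀ (by positivity)]
  have h5 : ((X : ℝ) + 1) ^ 3 ≤ 8 * (X : ℝ) ^ 3 := by
    have : (X : ℝ) + 1 ≤ 2 * X := by linarith
    calc ((X : ℝ) + 1) ^ 3 ≤ (2 * X) ^ 3 := pow_le_pow_left₀ (by linarith) this 3
      _ = 8 * (X : ℝ) ^ 3 := by ring
  have h6 : 2048 * C * Real.log X ^ 4 ≤ X := by
    have := mul_le_mul_of_nonneg_left h2 (by linarith : 0 ≤ 2048 * C)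
    refine this.trans (le_of_eq ?_)
    field_simp
  calc C * ((X : ℝ) + 1) ^ 3 * (4 * Real.log X) ^ 4
      ≤ C * (8 * (X : ℝ) ^ 3) * (4 * Real.log X) ^ 4 := by gcongr
    _ = (X : ℝ) ^ 3 * (2048 * C * Real.log X ^ 4) := by ring
    _ ≤ (X : ℝ) ^ 3 * X := by gcongr
    _ = (X : ℝ) ^ 4 := by ring

/-- number of odd primes up to `X` not dividing `N` -/
theorem card_primes_ge (N X : ℕ) (hN : 0 < N) :
    (Nat.primeCounting X : ℝ) - 1 - Real.logb 2 N ≤
      (((range (X + 1)).filter (fun p => p.Prime ∧ p ≠ 2 ∧ ¬ p ∣ N)).card : ℝ) := by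
  classical
  have h1 : (range (X + 1)).filter (fun p => p.Prime)
      ⊆ (range (X + 1)).filter (fun p => p.Prime ∧ p ≠ 2 ∧ ¬ p ∣ N) ∪ ({2} ∪ N.primeFactors) := by
    intro p hp
    rw [Finset.mem_filter] at hp
    rw [Finset.mem_union, Finset.mem_filter, Finset.mem_union, Finset.mem_singleton,
      Nat.mem_primeFactors]
    by_cases h2 : p = 2
    · exact Or.inr (Or.inl h2)
    · by_cases h3 : p ∣ N
      · exact Or.inr (Or.inr ⟨hp.2, h3, hN.ne'⟩)
      · exact Or.inl ⟨hp.1, hp.2, h2, h3⟩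
  have h2 : Nat.primeCounting X = ((range (X + 1)).filter (fun p => p.Prime)).card := by
    rw [Nat.primeCounting, Nat.primeCounting', Nat.count_eq_card_filter_range]
  have h3 := Finset.card_le_card h1
  rw [← h2] at h3
  have h4 := h3.trans (Finset.card_union_le _ _)
  have h5 : ({2} ∪ N.primeFactors : Finset ℕ).card ≤ 1 + N.primeFactors.card := by
    refine (Finset.card_union_le _ _).trans ?_
    simp
  have h6 : (2 : ℕ) ^ N.primeFactors.card ≤ N := by
    have h7 : (2 : ℕ) ^ N.primeFactors.card ≤ ∏ p ∈ N.primeFactors, p :=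
      Finset.pow_card_le_prod _ _ _ (fun p hp => (Nat.prime_of_mem_primeFactors hp).two_le)
    exact h7.trans (Nat.le_of_dvd hN (Nat.prod_primeFactors_dvd N))
  have h7 : (N.primeFactors.card : ℝ) ≤ Real.logb 2 N := by
    rw [Real.le_logb_iff_rpow_le (by norm_num) (by exact_mod_cast hN), Real.rpow_natCast]
    exact_mod_cast h6
  have h8 : (Nat.primeCounting X : ℝ) ≤
      (((range (X + 1)).filter (fun p => p.Prime ∧ p ≠ 2 ∧ ¬ p ∣ N)).card : ℝ)
        + (1 + N.primeFactors.card) := by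
    have := h4.trans (Nat.add_le_add_left h5 _)
    exact_mod_cast this
  linarith

theorem exists_hyperbola (ε : ℝ) (hε0 : 0 < ε) (hε1 : ε ≤ 1) :
    ∃ N₀ : ℕ, ∀ N : ℕ, N₀ ≤ N → ∃ b M : ℕ, N ∣ b * M + 1 ∧ ε * N / 2 - 1 < M ∧
      (M : ℝ) < ε * N ∧ b ^ 3 < N ^ 2 ∧ 1 ≤ b := by
  classical
  have hpi := Real.pi_pos
  set κ := Real.cos (Real.pi * ε / 2) with hκ
  have hκ0 : 0 ≤ κ := by
    rw [hκ]
    apply Real.cos_nonneg_of_neg_pi_div_two_le_of_le
    · have : 0 ≤ Real.pi * ε / 2 := by positivity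
      linarith
    · nlinarith
  have hκ1 : κ < 1 := by
    rw [hκ, ← Real.cos_zero]
    apply Real.cos_lt_cos_of_nonneg_of_le_pi le_rfl
    · nlinarith
    · positivity
  obtain ⟨K, hK⟩ := exists_nat_ge (3 / (1 - κ))
  have hK3 : 3 ≤ (K : ℝ) * (1 - κ) := by
    rwa [div_le_iff₀ (by linarith)] at hK
  have hK1 : 1 ≤ K := by
    rcases Nat.eq_zero_or_pos K with h | h
    · subst h
      norm_num at hK3
    · exact h
  have hKr : (1 : ℝ) ≤ K := by exact_mod_cast hK1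
  set δ : ℝ := 1 / (2 * (K : ℝ) ^ 2) with hδ
  have hδ0 : 0 < δ := by positivity
  set C : ℝ := 4 * (2 * (K : ℝ)) / δ ^ 8 with hC
  have hδ1 : δ ≤ 1 := by
    rw [hδ, div_le_one (by positivity)]
    nlinarith
  have hδ8 : δ ^ 8 ≤ 1 := pow_le_one₀ hδ0.le hδ1
  have hδ8p : 0 < δ ^ 8 := by positivity
  have hC1 : 8 * (K : ℝ) ≤ C := by
    rw [hC, le_div_iff₀ hδ8p]
    nlinarith
  obtain ⟨X₀, hX₀⟩ := eventually_atTop.mp (growth C (by linarith))
  obtain ⟨n₁, hn₁⟩ := exists_nat_ge (2 / ε)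
  refine ⟨2 * K * (X₀ + 1) ^ 3 + n₁ + 1, fun N hN => ?_⟩
  have hNpos : 0 < N := by omega
  have : NeZero N := ⟨hNpos.ne'⟩
  have hNr : (0 : ℝ) < N := by exact_mod_cast hNpos
  -- choose X
  set X := Nat.findGreatest (fun X => 2 * K * X ^ 3 < N) N with hX
  have hX1 : 2 * K * X ^ 3 < N := by
    have := Nat.findGreatest_spec (P := fun X => 2 * K * X ^ 3 < N) (Nat.zero_le N)
      (by simpa using hNpos)
    exact this
  have hXN : X < N := by
    have h1 : X ≤ N := Nat.findGreatest_le N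
    rcases h1.lt_or_eq with h | h
    · exact h
    · exfalso
      rw [h] at hX1
      have h2 : N ≤ N ^ 3 := Nat.le_self_pow (by norm_num) N
      have h3 : 1 * N ^ 3 ≤ 2 * K * N ^ 3 := Nat.mul_le_mul_right _ (by omega)
      omega
  have hX2 : N ≤ 2 * K * (X + 1) ^ 3 := by
    have := Nat.findGreatest_is_greatest (P := fun X => 2 * K * X ^ 3 < N) (n := N)
      (k := X + 1) (by omega) (by omega)
    push Not at this
    exact this
  have hXX₀ : X₀ ≤ X := by
    by_contra hcon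
    push Not at hcon
    have h1 : (X + 1) ^ 3 ≤ (X₀ + 1) ^ 3 := Nat.pow_le_pow_left (by omega) 3
    have h2 : 2 * K * (X + 1) ^ 3 ≤ 2 * K * (X₀ + 1) ^ 3 := Nat.mul_le_mul_left _ h1
    omega
  set W := (range (X + 1)).filter (fun p => p.Prime ∧ p ≠ 2 ∧ ¬ p ∣ N) with hW
  have hWp : ∀ p ∈ W, p.Prime ∧ p ≠ 2 ∧ p ≤ X ∧ p.Coprime N := by
    intro p hp
    rw [hW, Finset.mem_filter, Finset.mem_range] at hp
    obtain ⟨h1, h2, h3, h4⟩ := hp
    exact ⟨h2, h3, by omega, (Nat.Prime.coprime_iff_not_dvd h2).mpr h4⟩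
  have hNX : (N : ℝ) ≤ 2 * K * ((X : ℝ) + 1) ^ 3 := by exact_mod_cast hX2
  have hWcard : C * ((X : ℝ) + 1) ^ 3 ≤ (W.card : ℝ) ^ 4 := by
    apply hX₀ X hXX₀
    have h1 := card_primes_ge N X hNpos
    refine le_trans ?_ h1
    have h2 : Real.logb 2 N ≤ Real.logb 2 (C * ((X : ℝ) + 1) ^ 3) := by
      apply Real.logb_le_logb_of_le (by norm_num) hNr
      refine hNX.trans ?_
      have : (0 : ℝ) ≤ ((X : ℝ) + 1) ^ 3 := by positivity
      nlinarith
    linarith
  have hW4 : 4 * (N : ℝ) ≤ δ ^ 8 * (W.card : ℝ) ^ 4 := by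
    have h1 := mul_le_mul_of_nonneg_left hWcard hδ8p.le
    refine le_trans ?_ h1
    have h2 : δ ^ 8 * (C * ((X : ℝ) + 1) ^ 3) = 4 * (2 * K * ((X : ℝ) + 1) ^ 3) := by
      rw [hC]
      field_simp
    rw [h2]
    linarith
  have hWpos : 0 < W.card := by
    rcases Nat.eq_zero_or_pos W.card with h | h
    · rw [h] at hW4
      norm_num at hW4
      linarith
    · exact h
  -- the exponential sums
  have hexp : ∀ m : ℤ, m ≠ 0 → |m| ≤ K →
      ‖∑ y ∈ W ×ˢ W, ZMod.stdAddChar ((m : ZMod N) * (-((y.1 : ZMod N)⁻¹ * (y.2 : ZMod N)⁻¹)))‖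
        ≤ δ * (W ×ˢ W).card := by
    intro m hm hmK
    have h1 : ∑ y ∈ W ×ˢ W,
        ZMod.stdAddChar ((m : ZMod N) * (-((y.1 : ZMod N)⁻¹ * (y.2 : ZMod N)⁻¹)))
        = ∑ u ∈ W, ∑ v ∈ W, ZMod.stdAddChar
          ((((1 : ℕ) : ZMod N) * (u : ZMod N)⁻¹) * ((-(m : ZMod N)) * (v : ZMod N)⁻¹)) := by
      rw [Finset.sum_product]
      refine Finset.sum_congr rfl fun u _ => Finset.sum_congr rfl fun v _ => ?_
      congr 1
      push_cast
      ring
    rw [h1]
    have h2 := bilinear_energy W W (fun u : ℕ => ((1 : ℕ) : ZMod N) * (u : ZMod N)⁻¹)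
      (fun v : ℕ => (-(m : ZMod N)) * (v : ZMod N)⁻¹)
    have h3 : energy W (fun u : ℕ => ((1 : ℕ) : ZMod N) * (u : ZMod N)⁻¹) ≤ 2 * W.card ^ 2 :=
      energy_primes N 1 X W one_pos (by
        have : 2 * 1 * X ^ 3 ≤ 2 * K * X ^ 3 := Nat.mul_le_mul_right _ (by omega)
        omega) hWp _ (Or.inl rfl)
    have hmK' : m.natAbs ≤ K := by
      rw [Int.abs_eq_natAbs] at hmK
      exact_mod_cast hmK
    have h4 : energy W (fun v : ℕ => (-(m : ZMod N)) * (v : ZMod N)⁻¹) ≤ 2 * W.card ^ 2 :=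
      energy_primes N m.natAbs X W (Int.natAbs_pos.mpr hm) (by
        have : 2 * m.natAbs * X ^ 3 ≤ 2 * K * X ^ 3 := Nat.mul_le_mul_right _ (by omega)
        omega) hWp _ (by
        rcases Int.natAbs_eq m with h | h
        · right
          have h' : (m : ZMod N) = ((m.natAbs : ℕ) : ZMod N) := by
            conv_lhs => rw [h]
            exact Int.cast_natCast _
          rw [h']
        · left
          have h' : (m : ZMod N) = -((m.natAbs : ℕ) : ZMod N) := by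
            conv_lhs => rw [h]
            rw [Int.cast_neg, Int.cast_natCast]
          rw [h', neg_neg])
    have h3' : (energy W (fun u : ℕ => ((1 : ℕ) : ZMod N) * (u : ZMod N)⁻¹) : ℝ)
        ≤ 2 * (W.card : ℝ) ^ 2 := by exact_mod_cast h3
    have h4' : (energy W (fun v : ℕ => (-(m : ZMod N)) * (v : ZMod N)⁻¹) : ℝ)
        ≤ 2 * (W.card : ℝ) ^ 2 := by exact_mod_cast h4
    have h5 : ‖∑ u ∈ W, ∑ v ∈ W, ZMod.stdAddChar
          ((((1 : ℕ) : ZMod N) * (u : ZMod N)⁻¹) * ((-(m : ZMod N)) * (v : ZMod N)⁻¹))‖ ^ 8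
        ≤ (δ * (W.card * W.card : ℝ)) ^ 8 := by
      refine h2.trans ?_
      have h6 : (N : ℝ) * (energy W (fun u : ℕ => ((1 : ℕ) : ZMod N) * (u : ZMod N)⁻¹) : ℝ)
          * (energy W (fun v : ℕ => (-(m : ZMod N)) * (v : ZMod N)⁻¹) : ℝ)
          ≤ N * (2 * (W.card : ℝ) ^ 2) * (2 * (W.card : ℝ) ^ 2) := by
        gcongr
      calc (W.card : ℝ) ^ 4 * (W.card : ℝ) ^ 4 * _
          ≤ (W.card : ℝ) ^ 4 * (W.card : ℝ) ^ 4
            * (N * (2 * (W.card : ℝ) ^ 2) * (2 * (W.card : ℝ) ^ 2)) := by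
            gcongr
        _ = (4 * N) * (W.card : ℝ) ^ 12 := by ring
        _ ≤ (δ ^ 8 * (W.card : ℝ) ^ 4) * (W.card : ℝ) ^ 12 := by gcongr
        _ = (δ * (W.card * W.card : ℝ)) ^ 8 := by ring
    have h7 := (pow_le_pow_iff_left₀ (norm_nonneg _) (by positivity) (by norm_num : (8 : ℕ) ≠ 0)).mp h5
    rw [Finset.card_product]
    push_cast at h7 ⊢
    exact h7
  -- apply the window lemma
  set t : ℤ := ⌊3 * ε * N / 4⌋ with ht
  obtain ⟨⟨u, v⟩, hy, hre⟩ := exists_in_window N K (W ×ˢ W)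
    (fun y : ℕ × ℕ => -((y.1 : ZMod N)⁻¹ * (y.2 : ZMod N)⁻¹)) t δ κ hκ0 hκ1.le hK3
    (by rw [hδ]; field_simp; norm_num) hδ0.le
    (by rw [Finset.card_product]; exact Nat.mul_pos hWpos hWpos) hexp
  rw [Finset.mem_product] at hy
  obtain ⟨hu, hv⟩ := hy
  obtain ⟨hu1, hu2, huX, huN⟩ := hWp u hu
  obtain ⟨hv1, hv2, hvX, hvN⟩ := hWp v hv
  simp only at hre
  set x : ZMod N := -((u : ZMod N)⁻¹ * (v : ZMod N)⁻¹) with hx
  have hcosx : κ < Real.cos (2 * Real.pi * ((x.val : ℝ) - t) / N) := by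
    have h1 : x - (t : ZMod N) = (((x.val : ℤ) - t : ℤ) : ZMod N) := by
      push_cast
      rw [ZMod.natCast_zmod_val]
    rw [h1, ZMod.stdAddChar_coe] at hre
    have h2 : (2 * (Real.pi : ℂ) * Complex.I * (((x.val : ℤ) - t : ℤ) : ℂ) / N)
        = ((2 * Real.pi * ((x.val : ℝ) - t) / N : ℝ) : ℂ) * Complex.I := by
      push_cast
      ring
    rw [h2, Complex.exp_ofReal_mul_I_re] at hre
    exact hre
  have ht1 : (t : ℝ) ≤ 3 * ε * N / 4 := Int.floor_le _
  have ht2 : 3 * ε * N / 4 - 1 < t := Int.sub_one_lt_floor _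
  have hεN : 2 ≤ ε * N := by
    have h1 : (n₁ : ℝ) ≤ N := by
      have : n₁ ≤ N := by omega
      exact_mod_cast this
    have h2 := hn₁.trans h1
    rw [div_le_iff₀ hε0] at h2
    linarith
  have hwin := cos_window N hNpos ε x.val t hε0 hε1 (Nat.cast_nonneg _)
    (by exact_mod_cast ZMod.val_lt x) (by linarith) (by nlinarith) hcosx
  rw [abs_lt] at hwin
  refine ⟨u * v, x.val, ?_, by linarith [hwin.1], by linarith [hwin.2], ?_, ?_⟩
  · rw [← ZMod.natCast_eq_zero_iff]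
    push_cast
    rw [ZMod.natCast_zmod_val, hx]
    have iu : (u : ZMod N) * (u : ZMod N)⁻¹ = 1 := ZMod.coe_mul_inv_eq_one u huN
    have iv : (v : ZMod N) * (v : ZMod N)⁻¹ = 1 := ZMod.coe_mul_inv_eq_one v hvN
    have : (u : ZMod N) * v * -((u : ZMod N)⁻¹ * (v : ZMod N)⁻¹) + 1
        = 1 - ((u : ZMod N) * (u : ZMod N)⁻¹) * ((v : ZMod N) * (v : ZMod N)⁻¹) := by ring
    rw [this, iu, iv]
    ring
  · have h1 : (u * v) ^ 3 ≤ (X * X) ^ 3 := Nat.pow_le_pow_left (Nat.mul_le_mul huX hvX) 3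
    have h2 : (X * X) ^ 3 = (X ^ 3) ^ 2 := by ring
    have h3 : X ^ 3 < N := by
      have : 1 * X ^ 3 ≤ 2 * K * X ^ 3 := Nat.mul_le_mul_right _ (by omega)
      omega
    have h4 : (X ^ 3) ^ 2 < N ^ 2 := Nat.pow_lt_pow_left h3 (by norm_num)
    omega
  · exact Nat.mul_pos hu1.pos hv1.pos

end Pool.Agent.H2.SumPow
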