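import Pool.Agent.H2.SumPow.Orbit
import Pool.Agent.H2.SumPow.Hyperbola

/-!
For every `ε > 0` and all large `N`, the identity is a sum of at most `(1/2 + ε) N` `N`-th powers.
-/

namespace Pool.Agent.H2.SumPow

theorem asymptotic (ε : ℝ) (hε : 0 < ε) :
    ∃ N₀ : ℕ, ∀ N : ℕ, N₀ ≤ N → ∃ k : ℕ, 0 < k ∧ IsSumPow N k id ∧
      (k : ℝ) ≤ (1 / 2 + ε) * N := by
  set ε₁ : ℝ := min (ε / 3) (1 / 2) with hε₁
  have hε₁0 : 0 < ε₁ := lt_min (by linarith) (by norm_num)
  have hε₁1 : ε₁ ≤ 1 / 2 := min_le_right _ _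
  have hε₁ε : ε₁ ≤ ε / 3 := min_le_left _ _
  obtain ⟨N₁, hN₁⟩ := exists_hyperbola ε₁ hε₁0 (by linarith)
  set ε₂ : ℝ := ε₁ / 32 with hε₂
  have hε₂0 : 0 < ε₂ := by positivity
  obtain ⟨n₁, hn₁⟩ := exists_nat_ge (1 / ε₂ ^ 3)
  obtain ⟨n₂, hn₂⟩ := exists_nat_ge (8 / ε₁)
  obtain ⟨n₃, hn₃⟩ := exists_nat_ge ((1 + 4 / ε₁) / (ε / 4))
  refine ⟨N₁ + n₁ + n₂ + n₃ + 1, fun N hN => ?_⟩
  have hNpos : 0 < N := by omega
  have hNr : (0 : ℝ) < N := by exact_mod_cast hNpos
  obtain ⟨b, M, hdvd, hM1, hM2, hb3, hb1⟩ := hN₁ N (by omega)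
  have h1 : (n₁ : ℝ) ≤ N := by
    have : n₁ ≤ N := by omega
    exact_mod_cast this
  have h2 : (n₂ : ℝ) ≤ N := by
    have : n₂ ≤ N := by omega
    exact_mod_cast this
  have h3 : (n₃ : ℝ) ≤ N := by
    have : n₃ ≤ N := by omega
    exact_mod_cast this
  have hε₁N : 8 ≤ ε₁ * N := by
    have := hn₂.trans h2
    rw [div_le_iff₀ hε₁0] at this
    linarith
  have hrem : 1 + 4 / ε₁ ≤ (ε / 4) * N := by
    have := hn₃.trans h3
    rw [div_le_iff₀ (by positivity)] at this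
    linarith
  -- b is small
  have hbsmall : (b : ℝ) ≤ ε₂ * N := by
    by_contra hcon
    push Not at hcon
    have h4 : (ε₂ * N) ^ 3 < (b : ℝ) ^ 3 := by
      apply pow_lt_pow_left₀ hcon (by positivity) (by norm_num)
    have h5 : (b : ℝ) ^ 3 < (N : ℝ) ^ 2 := by exact_mod_cast hb3
    have h6 : 1 ≤ ε₂ ^ 3 * N := by
      have := hn₁.trans h1
      rw [div_le_iff₀ (by positivity)] at this
      linarith
    have h7 : (ε₂ * N) ^ 3 = (ε₂ ^ 3 * N) * (N : ℝ) ^ 2 := by ring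
    rw [h7] at h4
    nlinarith [sq_nonneg (N : ℝ)]
  have hMpos : 1 ≤ M := by
    by_contra hcon
    have : M = 0 := by omega
    rw [this] at hM1
    norm_num at hM1
    linarith
  have hMr : (1 : ℝ) ≤ M := by exact_mod_cast hMpos
  obtain ⟨a, ha⟩ := hdvd
  set D := (M - 1) / 2 with hD
  set c := M - 2 * D with hc
  have hc1 : 1 ≤ c := by omega
  have hc2 : c ≤ 2 := by omega
  have hMD : M = 2 * D + c := by omega
  have hDr : ε₁ * N / 4 - 3 / 2 ≤ D := by
    have h4 : M ≤ 2 * D + 2 := by omega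
    have h5 : (M : ℝ) ≤ 2 * D + 2 := by exact_mod_cast h4
    linarith
  have hbD : 2 * b ≤ D := by
    have h4 : (2 : ℝ) * b ≤ D := by
      rw [hε₂] at hbsmall
      linarith
    exact_mod_cast h4
  set T := (N - 1) / M with hT
  have hMT1 : M * T ≤ N - 1 := Nat.mul_div_le _ _
  have hMT2 : N - 1 < M * T + M := by
    have := Nat.lt_div_mul_add (a := N - 1) (b := M) (by omega)
    rw [mul_comm] at this
    exact this
  have hMN : M + 1 ≤ N := by
    have h4 : (M : ℝ) + 1 ≤ N := by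
      have h5 : ε₁ * N ≤ 1 / 2 * N := mul_le_mul_of_nonneg_right hε₁1 hNr.le
      linarith
    exact_mod_cast h4
  have hT1 : 1 ≤ T := by
    rw [hT, Nat.one_le_div_iff (by omega)]
    omega
  have hDT : D ≤ D * T := Nat.le_mul_of_pos_right _ hT1
  have hcb : c * (b - 1) + 1 < D := by
    have : c * (b - 1) ≤ 2 * (b - 1) := Nat.mul_le_mul_right _ hc2
    omega
  have hkey := orbit_bound N M D c a (b - 1) T hc1 hMD
    (by rw [Nat.sub_add_cancel hb1]; rw [mul_comm a N, ← ha]; ring)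
    hcb (by omega) (by omega)
  refine ⟨_, ?_, hkey, ?_⟩
  · omega
  · rw [Nat.sub_add_cancel hb1]
    have hDTN : D * T ≤ N := by
      have : D * T ≤ M * T := Nat.mul_le_mul_right _ (by omega)
      omega
    have e1 : ((M + (N - (D * T - b) + 1) : ℕ) : ℝ) = M + (N - ((D : ℝ) * T - b) + 1) := by
      rw [Nat.cast_add, Nat.cast_add, Nat.cast_sub (by omega), Nat.cast_sub (by omega)]
      push_cast
      ring
    rw [e1]
    have hTr : (T : ℝ) ≤ 4 / ε₁ := by
      have h4 : (M : ℝ) * T ≤ N := by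
        have : M * T ≤ N := by omega
        exact_mod_cast this
      rw [le_div_iff₀ hε₁0]
      have h5 : ε₁ * N / 4 ≤ M := by linarith
      have h6 : ε₁ * N / 4 * T ≤ N :=
        (mul_le_mul_of_nonneg_right h5 (Nat.cast_nonneg _)).trans h4
      have h7 : N * (T * ε₁) ≤ N * 4 := by nlinarith
      exact le_of_mul_le_mul_left h7 hNr
    have hDTr : (N : ℝ) - M - 2 * T ≤ 2 * ((D : ℝ) * T) := by
      have h4 : N - M ≤ M * T := by omega
      have h5 : (N : ℝ) - M ≤ M * T := by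
        have : ((N - M : ℕ) : ℝ) ≤ ((M * T : ℕ) : ℝ) := by exact_mod_cast h4
        rw [Nat.cast_sub (by omega), Nat.cast_mul] at this
        exact this
      have h6 : (M : ℝ) ≤ 2 * D + 2 := by
        have : M ≤ 2 * D + 2 := by omega
        exact_mod_cast this
      have h7 : (M : ℝ) * T ≤ (2 * D + 2) * T := mul_le_mul_of_nonneg_right h6 (Nat.cast_nonneg _)
      nlinarith
    have hbb : (b : ℝ) ≤ (ε / 96) * N := by
      refine hbsmall.trans ?_
      apply mul_le_mul_of_nonneg_right _ hNr.le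
      rw [hε₂]
      linarith
    have hMM : (M : ℝ) ≤ (ε / 3) * N := hM2.le.trans (mul_le_mul_of_nonneg_right hε₁ε hNr.le)
    have hεN : 0 < ε * N := by positivity
    nlinarith

end Pool.Agent.H2.SumPow
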