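import Mathlib

/-!
Averaging a polynomial over the `M`-th roots of unity extracts the exponents `≡ 1 mod M`.
-/

namespace Pool.Agent.H2.SumPow

open Finset Polynomial

theorem sum_roots {M : ℕ} (hM : 1 < M) {ω : ℂ} (hω : IsPrimitiveRoot ω M) (n : ℕ) :
    ∑ j ∈ range M, ω ^ ((M - 1) * j) * ω ^ (j * n)
      = if n % M = 1 then (M : ℂ) else 0 := by
  have h1 : ∀ j ∈ range M, ω ^ ((M - 1) * j) * ω ^ (j * n) = (ω ^ (M - 1 + n)) ^ j := by
    intro j _
    rw [← pow_add, ← pow_mul]
    congr 1
    ring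
  rw [Finset.sum_congr rfl h1]
  split_ifs with h
  · have h2 : ω ^ (M - 1 + n) = 1 := by
      rw [hω.pow_eq_one_iff_dvd]
      have h3 := Nat.div_add_mod n M
      rw [h] at h3
      refine ⟨n / M + 1, ?_⟩
      rw [mul_add, mul_one]
      omega
    simp [h2]
  · have h2 : ω ^ (M - 1 + n) ≠ 1 := by
      intro h2
      rw [hω.pow_eq_one_iff_dvd] at h2
      obtain ⟨c, hc⟩ := h2
      apply h
      have hc1 : 1 ≤ c := by
        rcases Nat.eq_zero_or_pos c with h0 | h0
        · subst h0
          simp at hc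
          omega
        · exact h0
      obtain ⟨d, rfl⟩ : ∃ d, c = d + 1 := ⟨c - 1, by omega⟩
      have : n = 1 + M * d := by
        rw [mul_add, mul_one] at hc
        omega
      rw [this, Nat.add_mul_mod_self_left]
      exact Nat.mod_eq_of_lt hM
    have h3 : (ω ^ (M - 1 + n) - 1) * ∑ j ∈ range M, (ω ^ (M - 1 + n)) ^ j = 0 := by
      rw [mul_geom_sum, ← pow_mul, mul_comm, pow_mul, hω.pow_eq_one, one_pow, sub_self]
    exact (mul_eq_zero.mp h3).resolve_left (sub_ne_zero.mpr h2)

theorem average {M : ℕ} (hM : 1 < M) {ω : ℂ} (hω : IsPrimitiveRoot ω M) (P : ℂ[X]) (B : ℕ)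
    (hB : P.natDegree < 1 + B * M) (z : ℂ) :
    ∑ j ∈ range M, ω ^ ((M - 1) * j) * P.eval (ω ^ j * z)
      = M * ∑ i ∈ range B, P.coeff (1 + i * M) * z ^ (1 + i * M) := by
  have h1 : ∀ j ∈ range M, ω ^ ((M - 1) * j) * P.eval (ω ^ j * z)
      = ∑ n ∈ range (1 + B * M), P.coeff n * z ^ n * (ω ^ ((M - 1) * j) * ω ^ (j * n)) := by
    intro j _
    rw [eval_eq_sum_range' hB, Finset.mul_sum]
    refine Finset.sum_congr rfl fun n _ => ?_
    rw [mul_pow, ← pow_mul]
    ring
  rw [Finset.sum_congr rfl h1, Finset.sum_comm]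
  have h2 : ∀ n ∈ range (1 + B * M),
      ∑ j ∈ range M, P.coeff n * z ^ n * (ω ^ ((M - 1) * j) * ω ^ (j * n))
      = if n % M = 1 then (M : ℂ) * (P.coeff n * z ^ n) else 0 := by
    intro n _
    rw [← Finset.mul_sum, sum_roots hM hω]
    split_ifs <;> ring
  rw [Finset.sum_congr rfl h2, ← Finset.sum_filter, Finset.mul_sum]
  symm
  refine Finset.sum_bij (fun i _ => 1 + i * M) ?_ ?_ ?_ ?_
  · intro i hi
    rw [mem_range] at hi
    rw [Finset.mem_filter, mem_range]
    constructor
    · have : i * M < B * M := Nat.mul_lt_mul_of_pos_right hi (by omega)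
      omega
    · rw [mul_comm, Nat.add_mul_mod_self_left]
      exact Nat.mod_eq_of_lt hM
  · intro i _ j _ hij
    have : i * M = j * M := by simpa using hij
    exact Nat.eq_of_mul_eq_mul_right (by omega) this
  · intro n hn
    rw [Finset.mem_filter, mem_range] at hn
    obtain ⟨hn1, hn2⟩ := hn
    have h3 := Nat.div_add_mod n M
    rw [hn2] at h3
    refine ⟨n / M, ?_, ?_⟩
    · rw [mem_range]
      by_contra hcon
      push Not at hcon
      have : M * B ≤ M * (n / M) := Nat.mul_le_mul_left _ hcon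
      have h4 : B * M = M * B := mul_comm _ _
      omega
    · rw [← h3]
      have : M * (n / M) = n / M * M := mul_comm _ _
      rw [this]
      have h5 : (n / M * M + 1) / M = n / M := by
        rw [← this, h3]
      rw [h5]
      ring
  · intro i _
    rfl

end Pool.Agent.H2.SumPow
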