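import Mathlib

/-!
Sums of `N`-th powers of entire functions: basic definitions and closure properties.
-/

namespace Pool.Agent.H2.SumPow

open Finset

/-- `f` is a sum of `k` `N`-th powers of entire functions. -/
def IsSumPow (N k : ℕ) (f : ℂ → ℂ) : Prop :=
  ∃ g : Fin k → ℂ → ℂ, (∀ i, Differentiable ℂ (g i)) ∧ ∀ z, f z = ∑ i, g i z ^ N

theorem IsSumPow.of_fintype {N : ℕ} {ι : Type*} [Fintype ι] {f : ℂ → ℂ} (g : ι → ℂ → ℂ)
    (hg : ∀ i, Differentiable ℂ (g i)) (h : ∀ z, f z = ∑ i, g i z ^ N) :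
    IsSumPow N (Fintype.card ι) f := by
  classical
  refine ⟨fun j => g ((Fintype.equivFin ι).symm j), fun j => hg _, fun z => ?_⟩
  rw [h z]
  exact (Equiv.sum_comp (Fintype.equivFin ι).symm (fun i => g i z ^ N)).symm

/-- weights can be absorbed -/
theorem IsSumPow.of_weights {N : ℕ} (hN : 0 < N) {ι : Type*} [Fintype ι] {f : ℂ → ℂ}
    (c : ι → ℂ) (g : ι → ℂ → ℂ)
    (hg : ∀ i, Differentiable ℂ (g i)) (h : ∀ z, f z = ∑ i, c i * g i z ^ N) :
    IsSumPow N (Fintype.card ι) f := by
  have hroot : ∀ i, ∃ d : ℂ, d ^ N = c i := fun i => IsAlgClosed.exists_pow_nat_eq (c i) hN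
  choose d hd using hroot
  refine IsSumPow.of_fintype (fun i z => d i * g i z) (fun i => (hg i).const_mul _) fun z => ?_
  rw [h z]
  refine Finset.sum_congr rfl fun i _ => ?_
  rw [mul_pow, hd]

theorem IsSumPow.mono {N : ℕ} (hN : 0 < N) {k k' : ℕ} (hk : k ≤ k') {f : ℂ → ℂ}
    (h : IsSumPow N k f) : IsSumPow N k' f := by
  obtain ⟨g, hg, hf⟩ := h
  have : IsSumPow N (Fintype.card (Fin k ⊕ Fin (k' - k))) f := by
    refine IsSumPow.of_fintype (Sum.elim g (fun _ _ => 0)) ?_ ?_
    · rintro (i | i)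
      · exact hg i
      · exact differentiable_const _
    · intro z
      rw [Fintype.sum_sum_type]
      simp [hf z, hN.ne']
  simpa [hk] using this

/-- composition: a representation of the identity gives one of every entire function. -/
theorem IsSumPow.comp {N k : ℕ} (h : IsSumPow N k id) {f : ℂ → ℂ} (hf : Differentiable ℂ f) :
    IsSumPow N k f := by
  obtain ⟨g, hg, hz⟩ := h
  refine ⟨fun i z => g i (f z), fun i => (hg i).comp hf, fun z => ?_⟩
  have := hz (f z)
  simpa using this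

end Pool.Agent.H2.SumPow
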