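import Mathlib

/-!
Bilinear exponential sums over `ZMod N` and additive energies.
-/

namespace Pool.Agent.H2.SumPow

open Finset

section

variable {N : ℕ} [NeZero N]

/-- the number of collisions -/
def coll {A : Type*} (P : Finset A) (α : A → ZMod N) : ℕ :=
  ((P ×ˢ P).filter (fun x => α x.1 = α x.2)).card

theorem norm_sq_eq {A : Type*} (Q : Finset A) (β : A → ZMod N) (x : ZMod N) :
    ((‖∑ q ∈ Q, ZMod.stdAddChar (x * β q)‖ ^ 2 : ℝ) : ℂ)
      = ∑ y ∈ Q ×ˢ Q, ZMod.stdAddChar (x * (β y.1 - β y.2)) := by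
  rw [Complex.ofReal_pow, ← Complex.mul_conj', map_sum, Finset.sum_mul_sum, ← Finset.sum_product']
  refine Finset.sum_congr rfl fun y _ => ?_
  rw [← AddChar.map_neg_eq_conj, ← AddChar.map_add_eq_mul]
  congr 1
  ring

theorem sum_norm_sq {A : Type*} (Q : Finset A) (β : A → ZMod N) :
    ∑ x : ZMod N, ‖∑ q ∈ Q, ZMod.stdAddChar (x * β q)‖ ^ 2 = N * coll Q β := by
  classical
  have h : ((∑ x : ZMod N, ‖∑ q ∈ Q, ZMod.stdAddChar (x * β q)‖ ^ 2 : ℝ) : ℂ)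
      = ((N * coll Q β : ℝ) : ℂ) := by
    rw [Complex.ofReal_sum]
    rw [Finset.sum_congr rfl fun x _ => norm_sq_eq Q β x]
    rw [Finset.sum_comm]
    have h1 : ∀ y ∈ Q ×ˢ Q, ∑ x : ZMod N, ZMod.stdAddChar (x * (β y.1 - β y.2))
        = if β y.1 = β y.2 then (N : ℂ) else 0 := by
      intro y _
      rw [AddChar.sum_mulShift _ (ZMod.isPrimitive_stdAddChar N), ZMod.card]
      simp only [sub_eq_zero]
      split_ifs <;> simp
    rw [Finset.sum_congr rfl h1, ← Finset.sum_filter, Finset.sum_const, coll]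
    push_cast
    rw [nsmul_eq_mul]
    ring
  exact_mod_cast h

theorem bilinear_basic {A B : Type*} (P : Finset A) (Q : Finset B) (α : A → ZMod N)
    (β : B → ZMod N) :
    ‖∑ p ∈ P, ∑ q ∈ Q, ZMod.stdAddChar (α p * β q)‖ ^ 2 ≤ N * coll P α * coll Q β := by
  classical
  set F : ZMod N → ℂ := fun x => ∑ q ∈ Q, ZMod.stdAddChar (x * β q) with hF
  set a : ZMod N → ℝ := fun x => ((P.filter (fun p => α p = x)).card : ℝ) with ha
  have h1 : ∑ p ∈ P, ∑ q ∈ Q, ZMod.stdAddChar (α p * β q) = ∑ x : ZMod N, (a x : ℂ) * F x := by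
    have h2 : ∀ x : ZMod N, (a x : ℂ) * F x = ∑ p ∈ P.filter (fun p => α p = x), F (α p) := by
      intro x
      rw [Finset.sum_congr rfl (fun p hp => by
        rw [(Finset.mem_filter.mp hp).2] : ∀ p ∈ P.filter (fun p => α p = x), F (α p) = F x)]
      rw [Finset.sum_const, nsmul_eq_mul, ha]
      simp
    rw [Finset.sum_congr rfl fun x _ => h2 x]
    exact (Finset.sum_fiberwise P α (fun p => F (α p))).symm
  rw [h1]
  have h3 : ‖∑ x : ZMod N, (a x : ℂ) * F x‖ ≤ ∑ x : ZMod N, a x * ‖F x‖ := by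
    refine (norm_sum_le _ _).trans (le_of_eq ?_)
    refine Finset.sum_congr rfl fun x _ => ?_
    rw [norm_mul, Complex.norm_real, Real.norm_of_nonneg (Nat.cast_nonneg _)]
  have h4 : (∑ x : ZMod N, a x * ‖F x‖) ^ 2 ≤ (∑ x : ZMod N, a x ^ 2) * ∑ x : ZMod N, ‖F x‖ ^ 2 :=
    Finset.sum_mul_sq_le_sq_mul_sq _ _ _
  have h5 : ∑ x : ZMod N, a x ^ 2 = coll P α := by
    rw [coll]
    have h6 : ((P ×ˢ P).filter (fun x => α x.1 = α x.2)).card
        = ∑ x : ZMod N, (P.filter (fun p => α p = x)).card ^ 2 := by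
      rw [Finset.card_eq_sum_card_fiberwise (f := fun y => α y.1)
        (t := (Finset.univ : Finset (ZMod N))) (fun _ _ => by simp)]
      refine Finset.sum_congr rfl fun x _ => ?_
      rw [sq, ← Finset.card_product]
      congr 1
      ext ⟨p, q⟩
      simp only [mem_filter, mem_product]
      constructor
      · rintro ⟨⟨⟨h1, h2⟩, h3⟩, h4⟩
        exact ⟨⟨h1, h4⟩, h2, h3 ▸ h4⟩
      · rintro ⟨⟨h1, h2⟩, h3, h4⟩
        exact ⟨⟨⟨h1, h3⟩, h2.trans h4.symm⟩, h2⟩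
    rw [h6]
    push_cast
    rfl
  have h6 : ∑ x : ZMod N, ‖F x‖ ^ 2 = N * coll Q β := sum_norm_sq Q β
  calc ‖∑ x : ZMod N, (a x : ℂ) * F x‖ ^ 2 ≤ (∑ x : ZMod N, a x * ‖F x‖) ^ 2 :=
        pow_le_pow_left₀ (norm_nonneg _) h3 2
    _ ≤ _ := h4
    _ = N * coll P α * coll Q β := by rw [h5, h6]; ring

/-- the additive energy -/
def energy {A : Type*} (P : Finset A) (α : A → ZMod N) : ℕ :=
  coll (P ×ˢ P) (fun x => α x.1 - α x.2)

theorem bilinear_energy {A B : Type*} (U : Finset A) (V : Finset B) (r : A → ZMod N)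
    (s : B → ZMod N) :
    ‖∑ u ∈ U, ∑ v ∈ V, ZMod.stdAddChar (r u * s v)‖ ^ 8
      ≤ (U.card : ℝ) ^ 4 * (V.card : ℝ) ^ 4 * (N * energy U r * energy V s) := by
  classical
  set S := ∑ u ∈ U, ∑ v ∈ V, ZMod.stdAddChar (r u * s v) with hS
  set T := ∑ p ∈ V ×ˢ V, ∑ q ∈ U ×ˢ U, ZMod.stdAddChar ((s p.1 - s p.2) * (r q.1 - r q.2))
    with hT
  have hT2 : ‖T‖ ^ 2 ≤ N * energy V s * energy U r := by
    exact bilinear_basic (V ×ˢ V) (U ×ˢ U) (fun x => s x.1 - s x.2) (fun x => r x.1 - r x.2)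
  have h1 : ‖S‖ ^ 2 ≤ U.card * ∑ u ∈ U, ‖∑ v ∈ V, ZMod.stdAddChar (r u * s v)‖ ^ 2 := by
    refine (pow_le_pow_left₀ (norm_nonneg _) (norm_sum_le _ _) 2).trans ?_
    exact sq_sum_le_card_mul_sum_sq
  have h2 : ∑ u ∈ U, ‖∑ v ∈ V, ZMod.stdAddChar (r u * s v)‖ ^ 2
      ≤ ∑ p ∈ V ×ˢ V, ‖∑ u ∈ U, ZMod.stdAddChar ((s p.1 - s p.2) * r u)‖ := by
    have h3 : ((∑ u ∈ U, ‖∑ v ∈ V, ZMod.stdAddChar (r u * s v)‖ ^ 2 : ℝ) : ℂ)
        = ∑ p ∈ V ×ˢ V, ∑ u ∈ U, ZMod.stdAddChar ((s p.1 - s p.2) * r u) := by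
      rw [Complex.ofReal_sum, Finset.sum_congr rfl fun u _ => norm_sq_eq V s (r u),
        Finset.sum_comm]
      refine Finset.sum_congr rfl fun p _ => Finset.sum_congr rfl fun u _ => ?_
      rw [mul_comm]
    have h4 : 0 ≤ ∑ u ∈ U, ‖∑ v ∈ V, ZMod.stdAddChar (r u * s v)‖ ^ 2 :=
      Finset.sum_nonneg fun _ _ => by positivity
    calc ∑ u ∈ U, ‖∑ v ∈ V, ZMod.stdAddChar (r u * s v)‖ ^ 2
        = ‖((∑ u ∈ U, ‖∑ v ∈ V, ZMod.stdAddChar (r u * s v)‖ ^ 2 : ℝ) : ℂ)‖ := by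
          rw [Complex.norm_real, Real.norm_of_nonneg h4]
      _ ≤ _ := by
          rw [h3]
          exact norm_sum_le _ _
  have h3 : (∑ p ∈ V ×ˢ V, ‖∑ u ∈ U, ZMod.stdAddChar ((s p.1 - s p.2) * r u)‖) ^ 2
      ≤ (V.card : ℝ) ^ 2 * ‖T‖ := by
    refine (sq_sum_le_card_mul_sum_sq).trans ?_
    rw [Finset.card_product]
    have h4 : ((∑ p ∈ V ×ˢ V, ‖∑ u ∈ U, ZMod.stdAddChar ((s p.1 - s p.2) * r u)‖ ^ 2 : ℝ) : ℂ)
        = T := by
      rw [Complex.ofReal_sum, Finset.sum_congr rfl fun p _ => norm_sq_eq U r (s p.1 - s p.2)]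
    have h5 : 0 ≤ ∑ p ∈ V ×ˢ V, ‖∑ u ∈ U, ZMod.stdAddChar ((s p.1 - s p.2) * r u)‖ ^ 2 :=
      Finset.sum_nonneg fun _ _ => by positivity
    have h6 : ∑ p ∈ V ×ˢ V, ‖∑ u ∈ U, ZMod.stdAddChar ((s p.1 - s p.2) * r u)‖ ^ 2 = ‖T‖ := by
      rw [← h4, Complex.norm_real, Real.norm_of_nonneg h5]
    rw [h6]
    push_cast
    rw [sq]
  have h7 : ‖S‖ ^ 4 ≤ (U.card : ℝ) ^ 2 * ((V.card : ℝ) ^ 2 * ‖T‖) := by
    have h8 : ‖S‖ ^ 4 = (‖S‖ ^ 2) ^ 2 := by ring
    rw [h8]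
    have h9 : ‖S‖ ^ 2 ≤ U.card * ∑ p ∈ V ×ˢ V, ‖∑ u ∈ U, ZMod.stdAddChar ((s p.1 - s p.2) * r u)‖ :=
      h1.trans (mul_le_mul_of_nonneg_left h2 (Nat.cast_nonneg _))
    refine (pow_le_pow_left₀ (by positivity) h9 2).trans ?_
    rw [mul_pow]
    exact mul_le_mul_of_nonneg_left h3 (by positivity)
  have h8 : ‖S‖ ^ 8 = (‖S‖ ^ 4) ^ 2 := by ring
  rw [h8]
  refine (pow_le_pow_left₀ (by positivity) h7 2).trans ?_
  have h9 : ((U.card : ℝ) ^ 2 * ((V.card : ℝ) ^ 2 * ‖T‖)) ^ 2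
      = (U.card : ℝ) ^ 4 * (V.card : ℝ) ^ 4 * ‖T‖ ^ 2 := by ring
  rw [h9]
  refine mul_le_mul_of_nonneg_left ?_ (by positivity)
  refine hT2.trans (le_of_eq (by ring))

end

/-- energy of inverses of primes -/
theorem energy_primes (N m X : ℕ) [NeZero N] (W : Finset ℕ) (hm : 0 < m)
    (hX : 2 * m * X ^ 3 < N)
    (hW : ∀ p ∈ W, p.Prime ∧ p ≠ 2 ∧ p ≤ X ∧ p.Coprime N) (c : ZMod N)
    (hc : c = m ∨ c = -m) :
    energy W (fun p => c * (p : ZMod N)⁻¹) ≤ 2 * W.card ^ 2 := by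
  classical
  have hsub : ((W ×ˢ W) ×ˢ (W ×ˢ W)).filter (fun x =>
      (c * (x.1.1 : ZMod N)⁻¹ - c * (x.1.2 : ZMod N)⁻¹)
        = (c * (x.2.1 : ZMod N)⁻¹ - c * (x.2.2 : ZMod N)⁻¹))
      ⊆ (W ×ˢ W).image (fun y => ((y.1, y.1), (y.2, y.2)))
        ∪ (W ×ˢ W).image (fun y => ((y.1, y.2), (y.1, y.2))) := by
    rintro ⟨⟨p1, p2⟩, ⟨p3, p4⟩⟩ hx
    simp only [mem_filter, mem_product] at hx
    obtain ⟨⟨⟨h1, h2⟩, h3, h4⟩, heq⟩ := hx
    obtain ⟨hp1, hp12, hp1X, hp1N⟩ := hW p1 h1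
    obtain ⟨hp2, hp22, hp2X, hp2N⟩ := hW p2 h2
    obtain ⟨hp3, hp32, hp3X, hp3N⟩ := hW p3 h3
    obtain ⟨hp4, hp42, hp4X, hp4N⟩ := hW p4 h4
    -- clear denominators
    have i1 : (p1 : ZMod N) * (p1 : ZMod N)⁻¹ = 1 := ZMod.coe_mul_inv_eq_one p1 hp1N
    have i2 : (p2 : ZMod N) * (p2 : ZMod N)⁻¹ = 1 := ZMod.coe_mul_inv_eq_one p2 hp2N
    have i3 : (p3 : ZMod N) * (p3 : ZMod N)⁻¹ = 1 := ZMod.coe_mul_inv_eq_one p3 hp3N
    have i4 : (p4 : ZMod N) * (p4 : ZMod N)⁻¹ = 1 := ZMod.coe_mul_inv_eq_one p4 hp4N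
    have heq' : (m : ZMod N) * ((p1 : ZMod N)⁻¹ - (p2 : ZMod N)⁻¹)
        = (m : ZMod N) * ((p3 : ZMod N)⁻¹ - (p4 : ZMod N)⁻¹) := by
      rcases hc with rfl | rfl
      · linear_combination heq
      · linear_combination - heq
    have hz : (m : ZMod N) * (((p2 : ZMod N) - p1) * p3 * p4 - ((p4 : ZMod N) - p3) * p1 * p2)
        = 0 := by
      have h5 := congrArg (fun t => t * ((p1 : ZMod N) * p2 * p3 * p4)) heq'
      have e1 : (m : ZMod N) * ((p1 : ZMod N)⁻¹ - (p2 : ZMod N)⁻¹) * ((p1 : ZMod N) * p2 * p3 * p4)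
          = m * (((p1 : ZMod N) * (p1 : ZMod N)⁻¹) * p2 * p3 * p4
            - ((p2 : ZMod N) * (p2 : ZMod N)⁻¹) * p1 * p3 * p4) := by ring
      have e2 : (m : ZMod N) * ((p3 : ZMod N)⁻¹ - (p4 : ZMod N)⁻¹) * ((p1 : ZMod N) * p2 * p3 * p4)
          = m * (((p3 : ZMod N) * (p3 : ZMod N)⁻¹) * p1 * p2 * p4
            - ((p4 : ZMod N) * (p4 : ZMod N)⁻¹) * p1 * p2 * p3) := by ring
      rw [e1, e2, i1, i2, i3, i4] at h5
      linear_combination h5
    have hz' : ((m * (((p2 : ℤ) - p1) * p3 * p4 - ((p4 : ℤ) - p3) * p1 * p2) : ℤ) : ZMod N) = 0 := by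
      push_cast
      exact hz
    rw [ZMod.intCast_zmod_eq_zero_iff_dvd] at hz'
    -- size
    have hpos : ∀ p : ℕ, p.Prime → (1 : ℤ) ≤ p := fun p hp => by exact_mod_cast hp.one_lt.le
    have hb1 := hpos p1 hp1
    have hb2 := hpos p2 hp2
    have hb3 := hpos p3 hp3
    have hb4 := hpos p4 hp4
    have hX1 : (p1 : ℤ) ≤ X := by exact_mod_cast hp1X
    have hX2 : (p2 : ℤ) ≤ X := by exact_mod_cast hp2X
    have hX3 : (p3 : ℤ) ≤ X := by exact_mod_cast hp3X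
    have hX4 : (p4 : ℤ) ≤ X := by exact_mod_cast hp4X
    have hX0 : (0 : ℤ) ≤ X := by positivity
    have habs : |((p2 : ℤ) - p1) * p3 * p4 - ((p4 : ℤ) - p3) * p1 * p2| ≤ 2 * (X : ℤ) ^ 3 := by
      have a1 : |(p2 : ℤ) - p1| ≤ X := by rw [abs_le]; constructor <;> linarith
      have a2 : |(p4 : ℤ) - p3| ≤ X := by rw [abs_le]; constructor <;> linarith
      have a3 : |((p2 : ℤ) - p1) * p3 * p4| ≤ X * X * X := by
        rw [abs_mul, abs_mul, abs_of_nonneg (by linarith : (0 : ℤ) ≤ p3),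
          abs_of_nonneg (by linarith : (0 : ℤ) ≤ p4)]
        exact mul_le_mul (mul_le_mul a1 hX3 (by linarith) hX0) hX4 (by linarith) (by positivity)
      have a4 : |((p4 : ℤ) - p3) * p1 * p2| ≤ X * X * X := by
        rw [abs_mul, abs_mul, abs_of_nonneg (by linarith : (0 : ℤ) ≤ p1),
          abs_of_nonneg (by linarith : (0 : ℤ) ≤ p2)]
        exact mul_le_mul (mul_le_mul a2 hX1 (by linarith) hX0) hX2 (by linarith) (by positivity)
      calc _ ≤ |((p2 : ℤ) - p1) * p3 * p4| + |((p4 : ℤ) - p3) * p1 * p2| := abs_sub _ _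
        _ ≤ X * X * X + X * X * X := add_le_add a3 a4
        _ = 2 * (X : ℤ) ^ 3 := by ring
    have hzero : ((p2 : ℤ) - p1) * p3 * p4 - ((p4 : ℤ) - p3) * p1 * p2 = 0 := by
      have h6 : (m : ℤ) * (((p2 : ℤ) - p1) * p3 * p4 - ((p4 : ℤ) - p3) * p1 * p2) = 0 := by
        apply Int.eq_zero_of_abs_lt_dvd hz'
        rw [abs_mul, abs_of_nonneg (by positivity : (0 : ℤ) ≤ m)]
        have h7 : (m : ℤ) * |((p2 : ℤ) - p1) * p3 * p4 - ((p4 : ℤ) - p3) * p1 * p2|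
            ≤ m * (2 * (X : ℤ) ^ 3) := mul_le_mul_of_nonneg_left habs (by positivity)
        have h8 : (m : ℤ) * (2 * (X : ℤ) ^ 3) < N := by
          have : ((2 * m * X ^ 3 : ℕ) : ℤ) < N := by exact_mod_cast hX
          push_cast at this
          linarith
        exact lt_of_le_of_lt h7 h8
      have hm' : (m : ℤ) ≠ 0 := by exact_mod_cast hm.ne'
      exact (mul_eq_zero.mp h6).resolve_left hm'
    rw [Finset.mem_union, Finset.mem_image, Finset.mem_image]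
    by_cases h12 : p1 = p2
    · left
      subst h12
      have h8 : ((p4 : ℤ) - p3) * p1 * p1 = 0 := by linear_combination - hzero
      have h9 : (p4 : ℤ) - p3 = 0 := by
        have hne : (p1 : ℤ) ≠ 0 := by linarith
        have := (mul_eq_zero.mp h8).resolve_right hne
        exact (mul_eq_zero.mp this).resolve_right hne
      have h10 : p3 = p4 := by
        have : (p4 : ℤ) = p3 := by linarith
        exact_mod_cast this.symm
      subst h10
      exact ⟨(p1, p3), Finset.mem_product.mpr ⟨h1, h3⟩, rfl⟩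
    · right
      have hd : (p1 : ℤ) ∣ ((p2 : ℤ) - p1) * p3 * p4 := ⟨((p4 : ℤ) - p3) * p2, by
        linear_combination hzero⟩
      have hprime1 : Prime (p1 : ℤ) := Nat.prime_iff_prime_int.mp hp1
      have hne12 : ¬ (p1 : ℤ) ∣ (p2 : ℤ) - p1 := by
        intro hcon
        have : (p1 : ℤ) ∣ p2 := by
          have := dvd_add hcon (dvd_refl (p1 : ℤ))
          simpa using this
        rw [Int.natCast_dvd_natCast] at this
        exact h12 ((Nat.prime_dvd_prime_iff_eq hp1 hp2).mp this)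
      have h34 : p1 = p3 ∨ p1 = p4 := by
        rcases hprime1.dvd_or_dvd hd with h | h
        · rcases hprime1.dvd_or_dvd h with h | h
          · exact absurd h hne12
          · rw [Int.natCast_dvd_natCast] at h
            exact Or.inl ((Nat.prime_dvd_prime_iff_eq hp1 hp3).mp h)
        · rw [Int.natCast_dvd_natCast] at h
          exact Or.inr ((Nat.prime_dvd_prime_iff_eq hp1 hp4).mp h)
      by_cases h13 : p1 = p3
      · subst h13
        have hne : (p1 : ℤ) ≠ 0 := by linarith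
        have h9 : (p1 : ℤ) * ((p1 : ℤ) * ((p2 : ℤ) - p4)) = 0 := by
          linear_combination hzero
        have h10 := (mul_eq_zero.mp ((mul_eq_zero.mp h9).resolve_left hne)).resolve_left hne
        have h11 : p2 = p4 := by
          have : (p2 : ℤ) = p4 := by linarith
          exact_mod_cast this
        subst h11
        exact ⟨(p1, p2), Finset.mem_product.mpr ⟨h1, h2⟩, rfl⟩
      · exfalso
        have h14 : p1 = p4 := h34.resolve_left h13
        subst h14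
        have hne : (p1 : ℤ) ≠ 0 := by linarith
        have h9 : (p1 : ℤ) * (2 * ((p2 : ℤ) * p3) - p1 * (p2 + p3)) = 0 := by
          linear_combination hzero
        have h10 := (mul_eq_zero.mp h9).resolve_left hne
        have h11 : (p1 : ℤ) ∣ 2 * ((p2 : ℤ) * p3) := ⟨(p2 : ℤ) + p3, by linarith⟩
        rcases hprime1.dvd_or_dvd h11 with h | h
        · have : p1 ∣ 2 := by exact_mod_cast h
          exact hp12 ((Nat.prime_dvd_prime_iff_eq hp1 Nat.prime_two).mp this)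
        · rcases hprime1.dvd_or_dvd h with h | h
          · rw [Int.natCast_dvd_natCast] at h
            exact h12 ((Nat.prime_dvd_prime_iff_eq hp1 hp2).mp h)
          · rw [Int.natCast_dvd_natCast] at h
            exact h13 ((Nat.prime_dvd_prime_iff_eq hp1 hp3).mp h)
  unfold energy coll
  refine (Finset.card_le_card hsub).trans ?_
  refine (Finset.card_union_le _ _).trans ?_
  have h1 := Finset.card_image_le (s := W ×ˢ W)
    (f := fun y : ℕ × ℕ => ((y.1, y.1), (y.2, y.2)))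
  have h2 := Finset.card_image_le (s := W ×ˢ W)
    (f := fun y : ℕ × ℕ => ((y.1, y.2), (y.1, y.2)))
  rw [Finset.card_product] at h1 h2
  nlinarith

end Pool.Agent.H2.SumPow
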