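import Mathlib

/-!
Strict differentiability of coefficients of powers of an affine family of polynomials, and a local
solvability lemma.
-/

namespace Pool.Agent.H2.SumPow

open Finset Polynomial Filter Topology

section deriv

variable {E : Type*} [NormedAddCommGroup E] [NormedSpace ℂ E] [FiniteDimensional ℂ E]

/-- The derivative of `v ↦ ((f₀ + H v)^k).coeff n` at `v`. -/
noncomputable def dcoeff (f₀ : ℂ[X]) (H : E →ₗ[ℂ] ℂ[X]) (k n : ℕ) (v : E) : E →L[ℂ] ℂ :=
  LinearMap.toContinuousLinearMap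
    { toFun := fun h => ((k : ℂ[X]) * (f₀ + H v) ^ (k - 1) * H h).coeff n
      map_add' := by intro x y; rw [map_add, mul_add, coeff_add]
      map_smul' := by
        intro c x
        rw [map_smul, mul_smul_comm, coeff_smul]
        rfl }

theorem dcoeff_apply (f₀ : ℂ[X]) (H : E →ₗ[ℂ] ℂ[X]) (k n : ℕ) (v h : E) :
    dcoeff f₀ H k n v h = ((k : ℂ[X]) * (f₀ + H v) ^ (k - 1) * H h).coeff n := rfl

theorem hasStrictFDerivAt_coeff_one (f₀ : ℂ[X]) (H : E →ₗ[ℂ] ℂ[X]) (n : ℕ) (v : E) :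
    HasStrictFDerivAt (fun v => (f₀ + H v).coeff n) (dcoeff f₀ H 1 n v) v := by
  have h1 : (fun v => (f₀ + H v).coeff n) = fun v => f₀.coeff n + dcoeff f₀ H 1 n (0 : E) v := by
    funext w
    rw [dcoeff_apply]
    simp
  have h2 : dcoeff f₀ H 1 n v = dcoeff f₀ H 1 n (0 : E) := by
    ext w
    rw [dcoeff_apply, dcoeff_apply]
    simp
  rw [h1, h2]
  exact (ContinuousLinearMap.hasStrictFDerivAt _).const_add _

theorem hasStrictFDerivAt_coeff_pow (f₀ : ℂ[X]) (H : E →ₗ[ℂ] ℂ[X]) (k : ℕ) :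
    ∀ (n : ℕ) (v : E),
    HasStrictFDerivAt (fun v => ((f₀ + H v) ^ k).coeff n) (dcoeff f₀ H k n v) v := by
  induction k with
  | zero =>
    intro n v
    have h2 : dcoeff f₀ H 0 n v = 0 := by
      ext w
      rw [dcoeff_apply]
      simp
    rw [h2]
    simp only [pow_zero]
    exact hasStrictFDerivAt_const _ _
  | succ k ih =>
    intro n v
    have h1 : (fun v => ((f₀ + H v) ^ (k + 1)).coeff n)
        = fun v => ∑ x ∈ antidiagonal n, ((f₀ + H v) ^ k).coeff x.1 * (f₀ + H v).coeff x.2 := by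
      funext w
      rw [pow_succ, coeff_mul]
    have h2 : HasStrictFDerivAt
        (fun v => ∑ x ∈ antidiagonal n, ((f₀ + H v) ^ k).coeff x.1 * (f₀ + H v).coeff x.2)
        (∑ x ∈ antidiagonal n, (((f₀ + H v) ^ k).coeff x.1 • dcoeff f₀ H 1 x.2 v
          + (f₀ + H v).coeff x.2 • dcoeff f₀ H k x.1 v)) v := by
      refine HasStrictFDerivAt.fun_sum fun x _ => ?_
      exact (ih x.1 v).mul (hasStrictFDerivAt_coeff_one f₀ H x.2 v)
    rw [h1]
    convert h2 using 1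
    ext w
    rw [dcoeff_apply]
    rw [ContinuousLinearMap.sum_apply]
    simp only [ContinuousLinearMap.add_apply, ContinuousLinearMap.smul_apply, smul_eq_mul,
      dcoeff_apply]
    have h3 : ((k + 1 : ℕ) : ℂ[X]) * (f₀ + H v) ^ (k + 1 - 1) * H w
        = (f₀ + H v) ^ k * (((1 : ℕ) : ℂ[X]) * (f₀ + H v) ^ (1 - 1) * H w)
          + ((k : ℂ[X]) * (f₀ + H v) ^ (k - 1) * H w) * (f₀ + H v) := by
      rcases Nat.eq_zero_or_pos k with hk | hk
      · subst hk
        simp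
      · have : (f₀ + H v) ^ k = (f₀ + H v) ^ (k - 1) * (f₀ + H v) := by
          rw [← pow_succ]
          congr 1
          omega
        simp only [Nat.add_sub_cancel, Nat.sub_self, pow_zero, Nat.cast_one, one_mul, mul_one]
        rw [this]
        push_cast
        ring
    rw [h3, coeff_add, coeff_mul, coeff_mul, ← Finset.sum_add_distrib]
    refine Finset.sum_congr rfl fun x _ => ?_
    ring

end deriv

/-- local solvability: a map `Ψ` with `Ψ 0 = 0` whose derivative at `0` is diagonal invertible. -/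
theorem exists_solution {ι : Type*} [Fintype ι] [DecidableEq ι] (i₀ : ι)
    (Ψ : (ι → ℂ) → (ι → ℂ)) (α : ι → ℂ) (hα : ∀ i, α i ≠ 0) (A : (ι → ℂ) →L[ℂ] (ι → ℂ))
    (hA : ∀ v i, A v i = α i * v i) (h0 : Ψ 0 = 0) (hΨ : HasStrictFDerivAt Ψ A 0) :
    ∃ v : ι → ℂ, v i₀ ≠ 0 ∧ Ψ v i₀ ≠ 0 ∧ ∀ i ≠ i₀, Ψ v i = 0 := by
  classical
  -- a small constant
  obtain ⟨η, hη0, hη⟩ : ∃ η : ℝ, 0 < η ∧ ∀ i, η < ‖α i‖ := by
    have hfin : ∃ η : ℝ, 0 < η ∧ ∀ i ∈ (Finset.univ : Finset ι), η < ‖α i‖ := by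
      have : ∀ s : Finset ι, ∃ η : ℝ, 0 < η ∧ ∀ i ∈ s, η < ‖α i‖ := by
        intro s
        induction s using Finset.induction_on with
        | empty => exact ⟨1, one_pos, by simp⟩
        | insert a s _ ih =>
          obtain ⟨η, h1, h2⟩ := ih
          refine ⟨min η (‖α a‖ / 2), lt_min h1 (by
            have := norm_pos_iff.mpr (hα a); linarith), ?_⟩
          intro i hi
          rw [Finset.mem_insert] at hi
          rcases hi with rfl | hi
          · have := norm_pos_iff.mpr (hα i)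
            exact lt_of_le_of_lt (min_le_right _ _) (by linarith)
          · exact lt_of_le_of_lt (min_le_left _ _) (h2 i hi)
      exact this _
    obtain ⟨η, h1, h2⟩ := hfin
    exact ⟨η, h1, fun i => h2 i (Finset.mem_univ _)⟩
  have hsurj : A.range = ⊤ := by
    rw [LinearMap.range_eq_top]
    intro w
    refine ⟨fun i => (α i)⁻¹ * w i, ?_⟩
    funext i
    have := hA (fun i => (α i)⁻¹ * w i) i
    rw [ContinuousLinearMap.coe_coe, this, ← mul_assoc, mul_inv_cancel₀ (hα i), one_mul]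
  have hmap : map Ψ (𝓝 0) = 𝓝 0 := by
    have := hΨ.map_nhds_eq_of_surj hsurj
    rwa [h0] at this
  have hlo : ∀ᶠ v in 𝓝 (0 : ι → ℂ), ‖Ψ v - A v‖ ≤ η * ‖v‖ := by
    have h1 := hΨ.hasFDerivAt.isLittleO.bound hη0
    filter_upwards [h1] with v hv
    simpa [h0] using hv
  have himg : Ψ '' {v | ‖Ψ v - A v‖ ≤ η * ‖v‖} ∈ 𝓝 (0 : ι → ℂ) := by
    rw [← hmap]
    exact image_mem_map hlo
  -- choose the target
  have hcont : Tendsto (fun δ : ℝ => (Pi.single i₀ (δ : ℂ) : ι → ℂ)) (𝓝[>] 0) (𝓝 0) := by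
    have h1 : Continuous (fun δ : ℝ => (Pi.single i₀ (δ : ℂ) : ι → ℂ)) := by
      refine continuous_pi fun i => ?_
      by_cases h : i = i₀
      · subst h
        simpa using Complex.continuous_ofReal
      · simp only [Pi.single_apply, h, if_false]
        exact continuous_const
    have h2 := h1.tendsto 0
    simp only [Complex.ofReal_zero, Pi.single_zero] at h2
    exact h2.mono_left nhdsWithin_le_nhds
  have hev : ∀ᶠ δ : ℝ in 𝓝[>] 0, (Pi.single i₀ (δ : ℂ) : ι → ℂ) ∈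
      Ψ '' {v | ‖Ψ v - A v‖ ≤ η * ‖v‖} := hcont himg
  have hpos : ∀ᶠ δ : ℝ in 𝓝[>] 0, 0 < δ := self_mem_nhdsWithin
  obtain ⟨δ, ⟨v, hv, hvδ⟩, hδ⟩ := (hev.and hpos).exists
  have hδ' : (δ : ℂ) ≠ 0 := by exact_mod_cast hδ.ne'
  have hvi₀ : Ψ v i₀ = δ := by rw [hvδ]; simp
  have hvi : ∀ i ≠ i₀, Ψ v i = 0 := by
    intro i hi
    rw [hvδ]
    simp [Pi.single_apply, hi]
  have hv0 : v ≠ 0 := by
    rintro rfl
    rw [h0] at hvi₀
    exact hδ' (by simpa using hvi₀.symm)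
  refine ⟨v, ?_, by rw [hvi₀]; exact hδ', hvi⟩
  intro hcon
  have hnorm : 0 < ‖v‖ := norm_pos_iff.mpr hv0
  have hlt : ∀ i, ‖v i‖ < ‖v‖ := by
    intro i
    by_cases hi : i = i₀
    · subst hi
      rw [hcon, norm_zero]
      exact hnorm
    · have h1 : ‖(Ψ v - A v) i‖ ≤ η * ‖v‖ := (norm_le_pi_norm _ i).trans hv
      rw [Pi.sub_apply, hvi i hi, zero_sub, norm_neg, hA, norm_mul] at h1
      have h2 : ‖α i‖ * ‖v i‖ < ‖α i‖ * ‖v‖ := by
        refine lt_of_le_of_lt h1 ?_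
        exact mul_lt_mul_of_pos_right (hη i) hnorm
      exact lt_of_mul_lt_mul_left h2 (norm_nonneg _)
  have := (pi_norm_lt_iff hnorm).mpr hlt
  exact lt_irrefl _ this

end Pool.Agent.H2.SumPow
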