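import Mathlib

/-!
A form of Sylvester's theorem: a moment sequence `g 0, ..., g s, 0, ..., 0` (length `N + 1`,
`g s ≠ 0`, `2 s ≤ N`) has a representation by `N - s + 1` nodes.
-/

namespace Pool.Agent.H2.SumPow

open Finset Polynomial

/-- For all but finitely many `τ`, `C τ * X ^ r + p` has only simple roots
(`p(0) ≠ 0`, `deg p < r`). -/
theorem exists_tau (r : ℕ) (p : ℂ[X]) (hp0 : p.coeff 0 ≠ 0) (hr : p.natDegree < r) :
    ∃ τ : ℂ, τ ≠ 0 ∧ (C τ * X ^ r + p).roots.Nodup := by
  classical
  set R : ℂ[X] := C (r : ℂ) * p - X * derivative p with hR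
  have hr0 : (r : ℂ) ≠ 0 := by
    have : 0 < r := by omega
    exact_mod_cast this.ne'
  have hR0 : R ≠ 0 := by
    intro h
    have : R.coeff 0 = 0 := by rw [h]; simp
    rw [hR] at this
    simp only [coeff_sub, mul_coeff_zero, coeff_C_zero, coeff_X_zero, zero_mul, sub_zero,
      mul_eq_zero] at this
    tauto
  obtain ⟨τ, hτ⟩ := Infinite.exists_notMem_finset
    (insert (0 : ℂ) (R.roots.toFinset.image fun ρ => - p.eval ρ / ρ ^ r))
  have hτ0 : τ ≠ 0 := by
    rintro rfl
    exact hτ (by simp)
  refine ⟨τ, hτ0, ?_⟩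
  set Q : ℂ[X] := C τ * X ^ r + p with hQ
  have hQ0 : Q ≠ 0 := by
    intro h
    have : Q.coeff 0 = 0 := by rw [h]; simp
    rw [hQ] at this
    have hr' : r ≠ 0 := by omega
    simp [hr'.symm] at this
    exact hp0 this
  rw [Multiset.nodup_iff_count_le_one]
  intro ρ
  rw [count_roots]
  by_contra hcon
  push Not at hcon
  rw [one_lt_rootMultiplicity_iff_isRoot hQ0] at hcon
  obtain ⟨h1, h2⟩ := hcon
  have e1 : τ * ρ ^ r + p.eval ρ = 0 := by
    have := h1
    simpa [hQ, IsRoot.def] using this
  have e2 : τ * (r * ρ ^ (r - 1)) + (derivative p).eval ρ = 0 := by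
    have := h2
    simpa [hQ, IsRoot.def, derivative_X_pow] using this
  have hρR : R.eval ρ = 0 := by
    rw [hR]
    simp only [eval_sub, eval_mul, eval_C, eval_X]
    have hrr : ρ * ρ ^ (r - 1) = ρ ^ r := by
      rw [← pow_succ']
      congr 1
      omega
    have e3 : p.eval ρ = - (τ * ρ ^ r) := by linear_combination e1
    have e4 : (derivative p).eval ρ = - (τ * (r * ρ ^ (r - 1))) := by linear_combination e2
    rw [e3, e4]
    linear_combination (τ * r) * hrr
  have hρ0 : ρ ≠ 0 := by
    rintro rfl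
    have hr' : r ≠ 0 := by omega
    have : p.coeff 0 = 0 := by
      rw [coeff_zero_eq_eval_zero]
      simpa [hr'] using e1
    exact hp0 this
  apply hτ
  rw [Finset.mem_insert]
  right
  rw [Finset.mem_image]
  refine ⟨ρ, ?_, ?_⟩
  · rw [Multiset.mem_toFinset, mem_roots hR0]
    exact hρR
  · have : ρ ^ r ≠ 0 := pow_ne_zero _ hρ0
    field_simp
    linear_combination - e1

/-- Given a sequence `g` with `g n = 0` for `n > s` and `g s ≠ 0`, there is a polynomial `p`
with `p(0) = 1`, `deg p ≤ s` and `∑_{l} p_l g_{m + l} = 0` for `m < s`. -/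
theorem exists_recurrence (s : ℕ) (g : ℕ → ℂ) (hs : g s ≠ 0) (hz : ∀ n, s < n → g n = 0) :
    ∃ p : ℂ[X], p.coeff 0 = 1 ∧ p.natDegree ≤ s ∧
      ∀ m < s, ∑ l ∈ range (s + 1), p.coeff l * g (m + l) = 0 := by
  classical
  set G : PowerSeries ℂ := PowerSeries.mk fun n => if n ≤ s then g (s - n) else 0 with hG
  have hG0 : PowerSeries.constantCoeff G ≠ 0 := by
    rw [hG]
    simpa using hs
  set φ : PowerSeries ℂ := PowerSeries.C (g s) * G⁻¹ with hφ
  have hφG : φ * G = PowerSeries.C (g s) := by
    rw [hφ, mul_assoc, PowerSeries.inv_mul_cancel _ hG0, mul_one]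
  refine ⟨PowerSeries.trunc (s + 1) φ, ?_, ?_, ?_⟩
  · rw [PowerSeries.coeff_trunc, if_pos (by omega)]
    rw [hφ]
    simp only [PowerSeries.coeff_zero_eq_constantCoeff, map_mul, PowerSeries.constantCoeff_C,
      PowerSeries.constantCoeff_inv]
    have : PowerSeries.constantCoeff G = g s := by
      rw [hG]
      simp
    rw [this]
    exact mul_inv_cancel₀ hs
  · have := PowerSeries.natDegree_trunc_lt φ s
    omega
  · intro m hm
    have h1 : PowerSeries.coeff (s - m) (φ * G) = 0 := by
      rw [hφG, PowerSeries.coeff_C, if_neg (by omega)]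
    rw [PowerSeries.coeff_mul, Finset.Nat.sum_antidiagonal_eq_sum_range_succ_mk] at h1
    have h2 : ∑ l ∈ range (s + 1), (PowerSeries.trunc (s + 1) φ).coeff l * g (m + l)
        = ∑ l ∈ range (s - m).succ, (PowerSeries.trunc (s + 1) φ).coeff l * g (m + l) := by
      symm
      apply Finset.sum_subset
      · intro x hx
        simp only [mem_range] at *
        omega
      · intro x hx hx'
        simp only [mem_range] at *
        rw [hz (m + x) (by omega), mul_zero]
    rw [h2, ← h1]
    refine Finset.sum_congr rfl fun l hl => ?_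
    rw [mem_range] at hl
    rw [PowerSeries.coeff_trunc, if_pos (by omega)]
    congr 1
    rw [hG, PowerSeries.coeff_mk, if_pos (by omega)]
    congr 1
    omega

/-- Sylvester type lemma. -/
theorem sylvester (N s : ℕ) (hsN : 2 * s ≤ N) (g : ℕ → ℂ) (hs : g s ≠ 0)
    (hz : ∀ n, s < n → g n = 0) :
    ∃ ρ γ : Fin (N - s + 1) → ℂ, ∀ n ≤ N, ∑ j, γ j * ρ j ^ n = g n := by
  classical
  obtain ⟨p, hp0, hps, hrec⟩ := exists_recurrence s g hs hz
  set r := N - s + 1 with hr
  obtain ⟨τ, hτ0, hnodup⟩ := exists_tau r p (by rw [hp0]; exact one_ne_zero) (by omega)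
  set Q : ℂ[X] := C τ * X ^ r + p with hQ
  have hQdeg : Q.natDegree = r := by
    rw [hQ, natDegree_add_eq_left_of_natDegree_lt]
    · exact natDegree_C_mul_X_pow r τ hτ0
    · rw [natDegree_C_mul_X_pow r τ hτ0]
      omega
  have hQ0 : Q ≠ 0 := by
    intro h
    rw [h] at hQdeg
    simp at hQdeg
  have hcard : Q.roots.toFinset.card = r := by
    rw [Multiset.toFinset_card_of_nodup hnodup, ← hQdeg]
    exact (splits_iff_card_roots.mp (IsAlgClosed.splits Q))
  let e : Fin r ≃ Q.roots.toFinset := (Q.roots.toFinset.equivFinOfCardEq hcard).symm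
  set ρ : Fin r → ℂ := fun j => (e j : ℂ) with hρ
  have hρinj : Function.Injective ρ := by
    intro i j hij
    exact e.injective (Subtype.ext hij)
  have hρroot : ∀ j, τ * ρ j ^ r + p.eval (ρ j) = 0 := by
    intro j
    have h1 : ρ j ∈ Q.roots.toFinset := (e j).2
    rw [Multiset.mem_toFinset, mem_roots hQ0, IsRoot.def] at h1
    simpa [hQ] using h1
  have hV : IsUnit (Matrix.vandermonde ρ) := by
    rw [Matrix.isUnit_iff_isUnit_det]
    exact (Matrix.det_vandermonde_ne_zero_iff.mpr hρinj).isUnit
  obtain ⟨γ, hγ⟩ := (Matrix.vecMul_surjective_iff_isUnit.mpr hV) (fun j : Fin r => g j)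
  refine ⟨ρ, γ, ?_⟩
  intro n
  induction n using Nat.strong_induction_on with
  | _ n ih =>
    intro hn
    by_cases hnr : n < r
    · have := congrFun hγ ⟨n, hnr⟩
      simpa [Matrix.vecMul, dotProduct, Matrix.vandermonde] using this
    · obtain ⟨m, rfl⟩ : ∃ m, n = m + r := ⟨n - r, by omega⟩
      have hms : m < s := by omega
      have h1 : τ * ∑ j, γ j * ρ j ^ (m + r) = 0 := by
        have h2 : τ * ∑ j, γ j * ρ j ^ (m + r)
            = - ∑ l ∈ range (s + 1), p.coeff l * g (m + l) := by
          have h3 : ∀ l ∈ range (s + 1), p.coeff l * g (m + l)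
              = p.coeff l * ∑ j, γ j * ρ j ^ (m + l) := by
            intro l hl
            rw [mem_range] at hl
            rw [ih (m + l) (by omega) (by omega)]
          rw [Finset.sum_congr rfl h3]
          simp only [Finset.mul_sum]
          rw [Finset.sum_comm, ← Finset.sum_neg_distrib]
          refine Finset.sum_congr rfl fun j _ => ?_
          have h4 := hρroot j
          rw [eval_eq_sum_range' (n := s + 1) (by omega)] at h4
          have h5 : τ * ρ j ^ r = - ∑ l ∈ range (s + 1), p.coeff l * ρ j ^ l := by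
            linear_combination h4
          calc τ * (γ j * ρ j ^ (m + r)) = γ j * ρ j ^ m * (τ * ρ j ^ r) := by
                rw [pow_add]; ring
            _ = γ j * ρ j ^ m * (- ∑ l ∈ range (s + 1), p.coeff l * ρ j ^ l) := by rw [h5]
            _ = - ∑ l ∈ range (s + 1), p.coeff l * (γ j * ρ j ^ (m + l)) := by
                rw [mul_neg, Finset.mul_sum]
                congr 1
                refine Finset.sum_congr rfl fun l _ => ?_
                rw [pow_add]; ring
        rw [h2, hrec m hms, neg_zero]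
      rw [hz (m + r) (by omega)]
      exact (mul_eq_zero.mp h1).resolve_left hτ0

end Pool.Agent.H2.SumPow
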