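import Pool.Agent.H2.SumPow.Basic
import Pool.Agent.H2.SumPow.Sylvester
import Pool.Agent.H2.SumPow.Deriv
import Pool.Agent.H2.SumPow.Average

/-!
The one-orbit construction.
-/

namespace Pool.Agent.H2.SumPow

open Finset Polynomial

theorem coeff_one_add_X_pow_D (D m n : ℕ) (hD : 0 < D) :
    ((1 + X ^ D : ℂ[X]) ^ m).coeff n = if D ∣ n then (m.choose (n / D) : ℂ) else 0 := by
  have h : (1 + X ^ D : ℂ[X]) ^ m = expand ℂ D ((1 + X) ^ m) := by
    simp
  rw [h, coeff_expand hD]
  split_ifs
  · rw [coeff_one_add_X_pow]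
  · rfl

/-- the perturbation -/
noncomputable def pert (b' : ℕ) (e : Fin (b' + 1) → ℕ) : (Fin (b' + 1) → ℂ) →ₗ[ℂ] ℂ[X] where
  toFun := fun v => ∑ l, C (v l) * X ^ e l
  map_add' := by
    intro v w
    rw [← Finset.sum_add_distrib]
    refine Finset.sum_congr rfl fun l _ => ?_
    rw [Pi.add_apply, C_add, add_mul]
  map_smul' := by
    intro c v
    rw [RingHom.id_apply, Finset.smul_sum]
    refine Finset.sum_congr rfl fun l _ => ?_
    rw [Pi.smul_apply, smul_eq_mul, C_mul, mul_assoc, smul_eq_C_mul]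

theorem pert_apply (b' : ℕ) (e : Fin (b' + 1) → ℕ) (v : Fin (b' + 1) → ℂ) :
    pert b' e v = ∑ l, C (v l) * X ^ e l := rfl

/-- Existence of the perturbed function. -/
theorem exists_pert (N D b' : ℕ) (hN : 0 < N) (e n u : Fin (b' + 1) → ℕ)
    (he : Function.Injective e) (he1 : ∀ l, 1 ≤ e l) (heD : ∀ l, e l < D)
    (hn : ∀ l, n l = e l + u l * D) (hu : ∀ l, u l ≤ N - 1) :
    ∃ v : Fin (b' + 1) → ℂ, v 0 ≠ 0 ∧ ((1 + X ^ D + pert b' e v) ^ N).coeff (n 0) ≠ 0 ∧
      ∀ i, i ≠ 0 → ((1 + X ^ D + pert b' e v) ^ N).coeff (n i) = 0 := by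
  have hD : 0 < D := lt_of_le_of_lt (Nat.zero_le _) (heD 0)
  refine exists_solution (0 : Fin (b' + 1))
    (fun v i => ((1 + X ^ D + pert b' e v) ^ N).coeff (n i))
    (fun i => (N : ℂ) * ((N - 1).choose (u i) : ℂ)) ?_
    (ContinuousLinearMap.pi fun i => dcoeff (1 + X ^ D) (pert b' e) N (n i) 0) ?_ ?_ ?_
  · intro i
    refine mul_ne_zero (by exact_mod_cast hN.ne') ?_
    exact_mod_cast (Nat.choose_pos (hu i)).ne'
  · intro v i
    rw [ContinuousLinearMap.pi_apply, dcoeff_apply, map_zero, add_zero, pert_apply,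
      Finset.mul_sum, finset_sum_coeff]
    rw [Finset.sum_eq_single i]
    · have h1 : (N : ℂ[X]) * (1 + X ^ D) ^ (N - 1) * (C (v i) * X ^ e i)
          = C ((N : ℂ) * v i) * ((1 + X ^ D) ^ (N - 1) * X ^ e i) := by
        rw [C_mul, C_eq_natCast]
        ring
      rw [h1, coeff_C_mul, coeff_mul_X_pow', if_pos (by rw [hn]; omega), coeff_one_add_X_pow_D _ _ _ hD]
      have h2 : n i - e i = u i * D := by rw [hn]; omega
      rw [h2, if_pos (Dvd.intro_left _ rfl), Nat.mul_div_cancel _ hD]
      ring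
    · intro l _ hl
      have h1 : (N : ℂ[X]) * (1 + X ^ D) ^ (N - 1) * (C (v l) * X ^ e l)
          = C ((N : ℂ) * v l) * ((1 + X ^ D) ^ (N - 1) * X ^ e l) := by
        rw [C_mul, C_eq_natCast]
        ring
      rw [h1, coeff_C_mul, coeff_mul_X_pow']
      split_ifs with h
      · rw [coeff_one_add_X_pow_D _ _ _ hD, if_neg, mul_zero]
        intro hdvd
        apply hl
        apply he
        have h3 : e l ≡ n i [MOD D] := (Nat.modEq_iff_dvd' h).mpr hdvd
        have h4 : n i ≡ e i [MOD D] := by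
          rw [hn]
          unfold Nat.ModEq
          simp
        have h5 := h3.trans h4
        unfold Nat.ModEq at h5
        rwa [Nat.mod_eq_of_lt (heD l), Nat.mod_eq_of_lt (heD i)] at h5
      · rw [mul_zero]
    · intro h
      exact absurd (Finset.mem_univ _) h
  · funext i
    simp only [map_zero, add_zero, Pi.zero_apply]
    rw [coeff_one_add_X_pow_D _ _ _ hD, if_neg]
    intro hdvd
    rw [hn] at hdvd
    have h1 : D ∣ e i := (Nat.dvd_add_left (Dvd.intro_left _ rfl)).mp hdvd
    exact absurd (Nat.le_of_dvd (he1 i) h1) (not_le.mpr (heD i))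
  · rw [hasStrictFDerivAt_pi]
    intro i
    exact hasStrictFDerivAt_coeff_pow _ _ _ _ _

theorem orbit_bound (N M D c a b' T : ℕ) (hc : 1 ≤ c) (hM : M = 2 * D + c)
    (hab : a * N = 1 + (b' + 1) * M) (hcb : c * b' + 1 < D) (hT : M * T + 1 ≤ N)
    (hDT : b' + 1 ≤ D * T) :
    IsSumPow N (M + (N - (D * T - (b' + 1)) + 1)) id := by
  classical
  have hN : 0 < N := by omega
  have hM1 : 1 < M := by omega
  have hT1 : 1 ≤ T := by
    rcases Nat.eq_zero_or_pos T with h | h
    · subst h
      omega
    · exact h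
  have hMN : M + 1 ≤ N := by
    have : M * 1 ≤ M * T := Nat.mul_le_mul_left _ hT1
    omega
  have hb'D : b' + 1 < D := by
    have : 1 * b' ≤ c * b' := Nat.mul_le_mul_right _ hc
    omega
  set e : Fin (b' + 1) → ℕ := fun l => 1 + c * l with he
  set n : Fin (b' + 1) → ℕ := fun i => if (i : ℕ) = 0 then 1 + D * T * M else 1 + i * M with hn
  set u : Fin (b' + 1) → ℕ := fun i => if (i : ℕ) = 0 then M * T else 2 * i with hu
  have hecl : ∀ l : Fin (b' + 1), c * (l : ℕ) ≤ c * b' := fun l =>
    Nat.mul_le_mul_left _ (by omega)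
  obtain ⟨v, hv0, hvn, hvi⟩ := exists_pert N D b' hN e n u
    (by
      intro i j hij
      have h1 : 1 + c * (i : ℕ) = 1 + c * (j : ℕ) := hij
      have h2 : c * (i : ℕ) = c * (j : ℕ) := by omega
      exact Fin.ext (Nat.eq_of_mul_eq_mul_left hc h2))
    (by intro l; simp only [he]; omega)
    (by intro l; simp only [he]; have := hecl l; omega)
    (by
      intro l
      simp only [he, hn, hu]
      split_ifs with h
      · rw [h]; ring
      · rw [hM]; ring)
    (by
      intro l
      simp only [hu]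
      split_ifs with h
      · omega
      · omega)
  set f : ℂ[X] := 1 + X ^ D + pert b' e v with hf
  set P : ℂ[X] := f ^ N with hP
  have hD0 : 0 < D := by omega
  -- degree of f
  have hfdeg : f.natDegree ≤ D := by
    rw [hf]
    refine natDegree_add_le_of_degree_le (natDegree_add_le_of_degree_le (by simp) (by simp)) ?_
    rw [pert_apply]
    refine natDegree_sum_le_of_forall_le _ _ fun l _ => ?_
    refine (natDegree_C_mul_X_pow_le _ _).trans ?_
    simp only [he]
    have := hecl l
    omega
  have hPdeg : P.natDegree ≤ N * D :=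
    natDegree_pow_le.trans (Nat.mul_le_mul_left _ hfdeg)
  -- constant coefficient and linear coefficient of f
  have hf0 : f.coeff 0 = 1 := by
    rw [hf, coeff_add, coeff_add, coeff_one_zero, coeff_X_pow, if_neg (by omega), pert_apply,
      finset_sum_coeff, Finset.sum_eq_zero]
    · ring
    · intro l _
      rw [coeff_C_mul, coeff_X_pow, if_neg, mul_zero]
      simp only [he]
      omega
  have hf1 : f.coeff 1 = v 0 := by
    rw [hf, coeff_add, coeff_add, coeff_one, if_neg (by omega), coeff_X_pow, if_neg (by omega),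
      pert_apply, finset_sum_coeff, Finset.sum_eq_single 0]
    · rw [coeff_C_mul, coeff_X_pow, if_pos (by simp [he])]
      ring
    · intro l _ hl
      rw [coeff_C_mul, coeff_X_pow, if_neg, mul_zero]
      simp only [he]
      have h1 : (l : ℕ) ≠ 0 := by
        intro h
        exact hl (Fin.ext h)
      have h2 : 1 * (l : ℕ) ≤ c * l := Nat.mul_le_mul_right _ hc
      omega
    · intro h
      exact absurd (Finset.mem_univ _) h
  have hP1 : P.coeff 1 = N * v 0 := by
    have h1 : (derivative P).coeff 0 = P.coeff 1 := by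
      rw [coeff_derivative]
      simp
    rw [← h1, hP, derivative_pow, coeff_zero_eq_eval_zero]
    simp only [eval_mul, eval_pow, eval_C]
    rw [← coeff_zero_eq_eval_zero, ← coeff_zero_eq_eval_zero, hf0, coeff_derivative]
    rw [zero_add, hf1]
    simp
  -- the vanishing coefficients
  have hPvan : ∀ i, 1 ≤ i → i ≤ b' → P.coeff (1 + i * M) = 0 := by
    intro i h1 h2
    have h3 := hvi ⟨i, by omega⟩ (by
      intro h
      have := congrArg Fin.val h
      simp at this
      omega)
    simpa [hn, show i ≠ 0 by omega] using h3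
  have hPtop : P.coeff (1 + D * T * M) ≠ 0 := by
    simpa [hn] using hvn
  -- tail coefficients
  set q : ℕ → ℂ := fun k => P.coeff (1 + (b' + 1 + k) * M) with hq
  set S := (range (N + 1)).filter (fun k => q k ≠ 0) with hS
  have hDTN : D * T ≤ N := by
    have : D * T ≤ M * T := Nat.mul_le_mul_right _ (by omega)
    omega
  have hmemS : D * T - (b' + 1) ∈ S := by
    rw [hS, Finset.mem_filter, Finset.mem_range]
    refine ⟨by omega, ?_⟩
    simp only [hq]
    rw [show b' + 1 + (D * T - (b' + 1)) = D * T by omega]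
    exact hPtop
  set s := S.max' ⟨_, hmemS⟩ with hs
  have hsS : s ∈ S := Finset.max'_mem _ _
  have hsle : D * T - (b' + 1) ≤ s := Finset.le_max' _ _ hmemS
  have hsN : s ≤ N ∧ q s ≠ 0 := by
    rw [hS, Finset.mem_filter, Finset.mem_range] at hsS
    exact ⟨by omega, hsS.2⟩
  have h2s : 2 * s ≤ N := by
    have h1 : 1 + (b' + 1 + s) * M ≤ N * D := (le_natDegree_of_ne_zero hsN.2).trans hPdeg
    by_contra hcon
    push Not at hcon
    have h2 : (N + 1) * M ≤ 2 * s * M := Nat.mul_le_mul_right _ hcon
    have h3 : 2 * (N * D) ≤ N * M := by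
      rw [hM]
      nlinarith
    nlinarith
  set g : ℕ → ℂ := fun k => if k ≤ N then q k / (N.choose k : ℂ) else 0 with hg
  have hchoose : ∀ k ≤ N, (N.choose k : ℂ) ≠ 0 := fun k hk => by
    exact_mod_cast (Nat.choose_pos hk).ne'
  obtain ⟨ρ, γ, hργ⟩ := sylvester N s h2s g
    (by
      simp only [hg, if_pos hsN.1]
      exact div_ne_zero hsN.2 (hchoose s hsN.1))
    (by
      intro k hk
      simp only [hg]
      split_ifs with h
      · have : q k = 0 := by
          by_contra hcon
          have hkS : k ∈ S := by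
            rw [hS, Finset.mem_filter, Finset.mem_range]
            exact ⟨by omega, hcon⟩
          have := Finset.le_max' S k hkS
          omega
        rw [this, zero_div]
      · rfl)
  have htail : ∀ Z : ℂ, ∑ k ∈ range (N + 1), q k * Z ^ k
      = ∑ j, γ j * (1 + ρ j * Z) ^ N := by
    intro Z
    have h1 : ∀ k ∈ range (N + 1), q k * Z ^ k
        = ∑ j, γ j * (ρ j ^ k * Z ^ k * (N.choose k : ℂ)) := by
      intro k hk
      rw [Finset.mem_range] at hk
      have h2 := hργ k (by omega)
      have h3 : q k = (N.choose k : ℂ) * ∑ j, γ j * ρ j ^ k := by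
        rw [h2]
        simp only [hg, if_pos (show k ≤ N by omega)]
        field_simp [hchoose k (by omega)]
      rw [h3, Finset.mul_sum, Finset.sum_mul]
      refine Finset.sum_congr rfl fun j _ => ?_
      ring
    rw [Finset.sum_congr rfl h1, Finset.sum_comm]
    refine Finset.sum_congr rfl fun j _ => ?_
    rw [← Finset.mul_sum]
    congr 1
    rw [add_comm (1 : ℂ), add_pow]
    refine Finset.sum_congr rfl fun k _ => ?_
    rw [one_pow, mul_pow]
    ring
  -- the primitive root of unity
  obtain ⟨ω, hω⟩ : ∃ ω : ℂ, IsPrimitiveRoot ω M :=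
    ⟨_, Complex.isPrimitiveRoot_exp M (by omega)⟩
  have hkey : ∀ z : ℂ, ∑ j ∈ range M, ω ^ ((M - 1) * j) * (f.eval (ω ^ j * z)) ^ N
      = M * (N * v 0 * z + ∑ j, γ j * (z ^ a * (1 + ρ j * z ^ M)) ^ N) := by
    intro z
    have h1 := average hM1 hω P (b' + 1 + (N + 1)) (by
      have h2 : N * D ≤ N * M := Nat.mul_le_mul_left _ (by omega)
      nlinarith) z
    simp only [hP, eval_pow] at h1
    rw [← hP] at h1
    rw [h1]
    congr 1
    rw [Finset.sum_range_add, Finset.sum_range_succ']
    rw [Finset.sum_eq_zero (fun i hi => by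
      rw [Finset.mem_range] at hi
      rw [hPvan (i + 1) (by omega) (by omega), zero_mul])]
    rw [zero_add, zero_mul, add_zero, hP1, pow_one]
    congr 1
    have h3 : ∀ k ∈ range (N + 1), P.coeff (1 + (b' + 1 + k) * M) * z ^ (1 + (b' + 1 + k) * M)
        = z ^ (a * N) * (q k * (z ^ M) ^ k) := by
      intro k _
      have h4 : 1 + (b' + 1 + k) * M = a * N + M * k := by
        rw [hab]
        ring
      simp only [hq]
      rw [h4, pow_add, pow_mul z M k]
      ring
    rw [Finset.sum_congr rfl h3, ← Finset.mul_sum, htail, Finset.mul_sum]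
    refine Finset.sum_congr rfl fun j _ => ?_
    rw [mul_pow, ← pow_mul]
    ring
  have hMc : (M : ℂ) ≠ 0 := by exact_mod_cast (by omega : M ≠ 0)
  have hNc : (N : ℂ) ≠ 0 := by exact_mod_cast hN.ne'
  have hfin : IsSumPow N (Fintype.card (Fin M ⊕ Fin (N - s + 1))) id := by
    refine IsSumPow.of_weights hN
      (Sum.elim (fun j : Fin M => ω ^ ((M - 1) * (j : ℕ)) / (M * (N * v 0)))
        (fun j => - (γ j / (N * v 0))))
      (Sum.elim (fun (j : Fin M) z => f.eval (ω ^ (j : ℕ) * z))
        (fun j z => z ^ a * (1 + ρ j * z ^ M))) ?_ ?_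
    · rintro (j | j)
      · simp only [Sum.elim_inl]
        exact f.differentiable.comp (differentiable_id.const_mul _)
      · simp only [Sum.elim_inr]
        fun_prop
    · intro z
      rw [Fintype.sum_sum_type]
      simp only [Sum.elim_inl, Sum.elim_inr, id]
      have h1 := hkey z
      rw [← Fin.sum_univ_eq_sum_range
        (fun j => ω ^ ((M - 1) * j) * (f.eval (ω ^ j * z)) ^ N) M] at h1
      have h2 : ∑ j : Fin M, ω ^ ((M - 1) * (j : ℕ)) / (M * (N * v 0))
          * (f.eval (ω ^ (j : ℕ) * z)) ^ N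
          = (∑ j : Fin M, ω ^ ((M - 1) * (j : ℕ)) * (f.eval (ω ^ (j : ℕ) * z)) ^ N)
            / (M * (N * v 0)) := by
        rw [Finset.sum_div]
        refine Finset.sum_congr rfl fun j _ => ?_
        ring
      have h3 : ∑ j, - (γ j / (N * v 0)) * (z ^ a * (1 + ρ j * z ^ M)) ^ N
          = - (∑ j, γ j * (z ^ a * (1 + ρ j * z ^ M)) ^ N) / (N * v 0) := by
        rw [← Finset.sum_neg_distrib, Finset.sum_div]
        refine Finset.sum_congr rfl fun j _ => ?_
        ring
      rw [h2, h3, h1]
      field_simp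
      ring
  refine hfin.mono hN ?_
  simp only [Fintype.card_sum, Fintype.card_fin]
  omega

end Pool.Agent.H2.SumPow
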